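import Pool.Agent.KS6_49.L8.Helper578.JD.RE

/-!
Automation for computability of compositions of functions, and more closure lemmas.
-/

namespace Pool.Agent.Helper578.JD.RE

open Encodable Nat.Partrec

attribute [fun_prop] Computable

section basic

variable {α β γ δ : Type*} [Primcodable α] [Primcodable β] [Primcodable γ] [Primcodable δ]

@[fun_prop] theorem cid : Computable (fun x : α => x) := Computable.id
@[fun_prop] theorem cconst (b : β) : Computable (fun _ : α => b) := Computable.const b
@[fun_prop] theorem ccomp {f : β → γ} {g : α → β} (hf : Computable f) (hg : Computable g) :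
    Computable (fun x => f (g x)) := hf.comp hg
@[fun_prop] theorem cfst {f : α → β × γ} (hf : Computable f) :
    Computable (fun x => (f x).1) := Computable.fst.comp hf
@[fun_prop] theorem csnd {f : α → β × γ} (hf : Computable f) :
    Computable (fun x => (f x).2) := Computable.snd.comp hf
@[fun_prop] theorem cpair {f : α → β} {g : α → γ} (hf : Computable f) (hg : Computable g) :
    Computable (fun x => (f x, g x)) := hf.pair hg
@[fun_prop] theorem cadd {f g : α → ℕ} (hf : Computable f) (hg : Computable g) :
    Computable (fun x => f x + g x) := Primrec.nat_add.to_comp.comp hf hg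
@[fun_prop] theorem csub {f g : α → ℕ} (hf : Computable f) (hg : Computable g) :
    Computable (fun x => f x - g x) := Primrec.nat_sub.to_comp.comp hf hg
@[fun_prop] theorem cmul {f g : α → ℕ} (hf : Computable f) (hg : Computable g) :
    Computable (fun x => f x * g x) := Primrec.nat_mul.to_comp.comp hf hg
@[fun_prop] theorem cmin {f g : α → ℕ} (hf : Computable f) (hg : Computable g) :
    Computable (fun x => min (f x) (g x)) := Primrec.nat_min.to_comp.comp hf hg
@[fun_prop] theorem cmax {f g : α → ℕ} (hf : Computable f) (hg : Computable g) :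
    Computable (fun x => max (f x) (g x)) := Primrec.nat_max.to_comp.comp hf hg
@[fun_prop] theorem csucc {f : α → ℕ} (hf : Computable f) :
    Computable (fun x => Nat.succ (f x)) := Computable.succ.comp hf
@[fun_prop] theorem cappend {f g : α → List β} (hf : Computable f) (hg : Computable g) :
    Computable (fun x => f x ++ g x) := Computable.list_append.comp hf hg
@[fun_prop] theorem ccons {f : α → β} {g : α → List β} (hf : Computable f) (hg : Computable g) :
    Computable (fun x => f x :: g x) := Computable.list_cons.comp hf hg
@[fun_prop] theorem clength {f : α → List β} (hf : Computable f) :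
    Computable (fun x => (f x).length) := Computable.list_length.comp hf
@[fun_prop] theorem cgetElem {f : α → List β} {g : α → ℕ} (hf : Computable f)
    (hg : Computable g) : Computable (fun x => (f x)[g x]?) :=
  Computable.list_getElem?.comp hf hg
@[fun_prop] theorem cencode {f : α → β} (hf : Computable f) :
    Computable (fun x => encode (f x)) := Computable.encode.comp hf
@[fun_prop] theorem cdecode {f : α → ℕ} (hf : Computable f) :
    Computable (fun x => (decode (f x) : Option β)) := Computable.decode.comp hf
@[fun_prop] theorem csome {f : α → β} (hf : Computable f) :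
    Computable (fun x => some (f x)) := Computable.option_some.comp hf
@[fun_prop] theorem cisSome {f : α → Option β} (hf : Computable f) :
    Computable (fun x => (f x).isSome) := Primrec.option_isSome.to_comp.comp hf
@[fun_prop] theorem cnot {f : α → Bool} (hf : Computable f) :
    Computable (fun x => !(f x)) := Primrec.not.to_comp.comp hf
@[fun_prop] theorem cand {f g : α → Bool} (hf : Computable f) (hg : Computable g) :
    Computable (fun x => f x && g x) := Primrec.and.to_comp.comp hf hg
@[fun_prop] theorem cor {f g : α → Bool} (hf : Computable f) (hg : Computable g) :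
    Computable (fun x => f x || g x) := Primrec.or.to_comp.comp hf hg
@[fun_prop] theorem cunpair {f : α → ℕ} (hf : Computable f) :
    Computable (fun x => (f x).unpair) := Computable.unpair.comp hf
@[fun_prop] theorem cnatpair {f g : α → ℕ} (hf : Computable f) (hg : Computable g) :
    Computable (fun x => Nat.pair (f x) (g x)) := Primrec₂.natPair.to_comp.comp hf hg
@[fun_prop] theorem cmapsnd {f : α → List (β × γ)} (hf : Computable f) :
    Computable (fun x => (f x).map Prod.snd) :=
  (Primrec.list_map Primrec.id (Primrec.snd.comp Primrec.snd).to₂).to_comp.comp hf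
@[fun_prop] theorem cmapfst {f : α → List (β × γ)} (hf : Computable f) :
    Computable (fun x => (f x).map Prod.fst) :=
  (Primrec.list_map Primrec.id (Primrec.fst.comp Primrec.snd).to₂).to_comp.comp hf
@[fun_prop] theorem ccond {c : α → Bool} {f g : α → β} (hc : Computable c) (hf : Computable f)
    (hg : Computable g) : Computable (fun x => bif c x then f x else g x) :=
  Computable.cond hc hf hg

theorem cdecide {p : α → Prop} [DecidablePred p] (hp : ComputablePred p) :
    Computable (fun x => decide (p x)) := hp.decide

theorem cite {p : α → Prop} [DecidablePred p] {f g : α → β} (hp : ComputablePred p)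
    (hf : Computable f) (hg : Computable g) : Computable (fun x => if p x then f x else g x) := by
  refine (Computable.cond (cdecide hp) hf hg).of_eq fun x => ?_
  by_cases h : p x <;> simp [h]

end basic

section more

variable {α β γ σ : Type*} [Primcodable α] [Primcodable β] [Primcodable γ] [Primcodable σ]

theorem cp_mem {f : α → β} {l : α → List β} (hf : Computable f) (hl : Computable l) :
    ComputablePred fun a => f a ∈ l a :=
  cp_of_re (mem_list hf hl) (not_mem_list hf hl)

theorem cp_nodup {l : α → List β} (hl : Computable l) :
    REPred fun a => (l a).Nodup := by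
  have h : REPred fun a => ∀ i < (l a).length, ∀ j < i, (l a)[j]? ≠ (l a)[i]? := by
    refine all_lt (p := fun a i => ∀ j < i, (l a)[j]? ≠ (l a)[i]?) ?_ (by fun_prop)
    refine all_lt (p := fun (x : α × ℕ) j => (l x.1)[j]? ≠ (l x.1)[x.2]?) ?_ (by fun_prop)
    refine ne ?_ ?_ <;> fun_prop
  refine h.of_eq fun a => ?_
  rw [List.nodup_iff_getElem?_ne_getElem?]
  constructor
  · intro h i j hij hj; exact h j hj i hij
  · intro h i hi j hj; exact h j i hj hi

/-- A nonempty r.e. predicate is the range of a computable sequence. -/
theorem exists_enum {p : α → Prop} (hp : REPred p) {a0 : α} (h0 : p a0) :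
    ∃ f : ℕ → α, Computable f ∧ ∀ a, p a ↔ ∃ n, f n = a := by
  obtain ⟨q, hq, h⟩ := re_iff.1 hp
  have hq' : Computable fun x : α × ℕ => q x.1 x.2 := hq
  refine ⟨fun n => ((decode (α := α) n.unpair.1).elim a0
    (fun b => bif q b n.unpair.2 then b else a0)), ?_, ?_⟩
  · have h3 : Computable fun n : ℕ => decode (α := α) n.unpair.1 := by fun_prop
    have h4 : Computable₂ fun (n : ℕ) (b : α) => bif q b n.unpair.2 then b else a0 := by
      unfold Computable₂
      fun_prop
    refine (Computable.option_casesOn h3 (Computable.const a0) h4).of_eq fun n => ?_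
    cases decode (α := α) n.unpair.1 <;> rfl
  · intro a
    constructor
    · intro ha
      obtain ⟨m, hm⟩ := (h a).1 ha
      exact ⟨Nat.pair (encode a) m, by simp [hm]⟩
    · rintro ⟨n, rfl⟩
      dsimp only
      rcases decode (α := α) n.unpair.1 with _ | b
      · exact h0
      · rcases hqq : q b n.unpair.2 with _ | _
        · simpa [hqq] using h0
        · simpa [hqq] using (h b).2 ⟨_, hqq⟩

/-- The standard enumeration of all r.e. subsets, with stages. -/
def wst (α : Type*) [Primcodable α] (e s : ℕ) (x : α) : Bool :=
  (Code.evaln s (Denumerable.ofNat Code e) (encode x)).isSome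

theorem wst_comp : Computable fun p : (ℕ × ℕ) × α => wst α p.1.1 p.1.2 p.2 := by
  have h1 : Computable fun x : (ℕ × Code) × ℕ => (Code.evaln x.1.1 x.1.2 x.2) :=
    Code.primrec_evaln.to_comp
  have h2 : Computable fun p : (ℕ × ℕ) × α => Denumerable.ofNat Code p.1.1 :=
    (Computable.ofNat Code).comp (by fun_prop)
  have h3 : Computable fun p : (ℕ × ℕ) × α =>
      Code.evaln p.1.2 (Denumerable.ofNat Code p.1.1) (encode p.2) :=
    h1.comp (((by fun_prop : Computable fun p : (ℕ × ℕ) × α => p.1.2).pair h2).pair
      (by fun_prop))
  exact cisSome h3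

theorem wst_mono {e s t : ℕ} (hst : s ≤ t) {x : α} (h : wst α e s x = true) :
    wst α e t x = true := by
  unfold wst at *
  obtain ⟨y, hy⟩ := Option.isSome_iff_exists.1 h
  have := Code.evaln_mono hst (Option.mem_def.2 hy)
  rw [Option.mem_def] at this
  rw [this]; rfl

theorem wst_univ {p : α → Prop} (hp : REPred p) : ∃ e, ∀ x, p x ↔ ∃ s, wst α e s x = true := by
  obtain ⟨c, hc⟩ := Nat.Partrec.Code.exists_code.1 hp
  refine ⟨encode c, fun a => ?_⟩
  have h1 : Code.eval c (encode a) =
      (Part.assert (p a) fun _ => Part.some ()).map encode := by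
    rw [hc]; simp
  have h2 : p a ↔ (Code.eval c (encode a)).Dom := by
    rw [h1]
    simp only [Part.map_Dom]
    constructor
    · intro h; exact ⟨h, trivial⟩
    · rintro ⟨h, -⟩; exact h
  unfold wst
  rw [h2, Part.dom_iff_mem, Denumerable.ofNat_encode]
  constructor
  · rintro ⟨y, hy⟩
    obtain ⟨k, hk⟩ := Code.evaln_complete.1 hy
    refine ⟨k, ?_⟩
    rw [Option.mem_def] at hk
    rw [hk]; rfl
  · rintro ⟨k, hk⟩
    obtain ⟨y, hy⟩ := Option.isSome_iff_exists.1 hk
    exact ⟨y, Code.evaln_complete.2 ⟨k, hy⟩⟩

theorem wst_re (e : ℕ) : REPred fun x : α => ∃ s, wst α e s x = true := by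
  refine exN (p := fun (x : α) s => wst α e s x = true) (of_bool ?_)
  exact wst_comp.comp (f := fun p : (ℕ × ℕ) × α => wst α p.1.1 p.1.2 p.2)
    (g := fun x : α × ℕ => ((e, x.2), x.1)) (by fun_prop)

end more

end Pool.Agent.Helper578.JD.RE
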