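import Pool.Agent.KS6_49.L8.Helper578.JD.Core



namespace Pool.Agent.Helper578.JD

open Encodable Oracle RE Defs
open Nat.Partrec (Code)

section generic_aux_5761

variable {Z : Set ℕ}

/-- the consistency of information is decidable -/
theorem cons_re {α : Type} [Primcodable α] {f : α → Info} (hf : Computable f) :
    REPred fun a => Cons (f a) := by
  refine RE.all_mem (p := fun (a : α) (x : ℕ) => x ∉ (f a).2) (l := fun a => (f a).1) ?_
    (by fun_prop)
  exact RE.not_mem_list (by fun_prop) (by fun_prop)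

theorem not_cons_re {α : Type} [Primcodable α] {f : α → Info} (hf : Computable f) :
    REPred fun a => ¬ Cons (f a) := by
  have h : REPred fun a => ∃ x ∈ (f a).1, x ∈ (f a).2 := by
    refine RE.ex_mem (p := fun (a : α) (x : ℕ) => x ∈ (f a).2) (l := fun a => (f a).1) ?_
      (by fun_prop)
    exact RE.mem_list (by fun_prop) (by fun_prop)
  refine h.of_eq fun a => ?_
  unfold Cons
  push Not
  rfl

/-- deciding the number `s` -/
def Dc (s : ℕ) (u p : Info) : Prop :=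
  (s ∈ u.1 ∧ p = u) ∨ (s ∈ u.2 ∧ p = u) ∨ ((s ∉ u.1 ∧ s ∉ u.2) ∧ p = (u.1, s :: u.2))

theorem Dc_ex (s : ℕ) (u : Info) : ∃ p, Dc s u p := by
  by_cases h1 : s ∈ u.1
  · exact ⟨u, Or.inl ⟨h1, rfl⟩⟩
  by_cases h2 : s ∈ u.2
  · exact ⟨u, Or.inr (Or.inl ⟨h2, rfl⟩)⟩
  exact ⟨_, Or.inr (Or.inr ⟨⟨h1, h2⟩, rfl⟩)⟩

theorem Dc_uniq {s : ℕ} {u p p' : Info} (h : Dc s u p) (h' : Dc s u p') : p = p' := by
  unfold Dc at h h'
  rcases h with ⟨h1, rfl⟩ | ⟨h1, rfl⟩ | ⟨h1, rfl⟩ <;>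
    rcases h' with ⟨h2, rfl⟩ | ⟨h2, rfl⟩ | ⟨h2, rfl⟩ <;> first | rfl | (exfalso; tauto)

theorem Dc_spec {s : ℕ} {u p : Info} (h : Dc s u p) (hu : Cons u) :
    Cons p ∧ (∀ x ∈ u.1, x ∈ p.1) ∧ (∀ x ∈ u.2, x ∈ p.2) ∧ (s ∈ p.1 ∨ s ∈ p.2) := by
  rcases h with ⟨h1, rfl⟩ | ⟨h1, rfl⟩ | ⟨⟨h1, h2⟩, rfl⟩
  · exact ⟨hu, fun x hx => hx, fun x hx => hx, Or.inl h1⟩
  · exact ⟨hu, fun x hx => hx, fun x hx => hx, Or.inr h1⟩
  · refine ⟨?_, fun x hx => hx, fun x hx => List.mem_cons_of_mem _ hx,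
      Or.inr List.mem_cons_self⟩
    intro x hx hx'
    rcases List.mem_cons.1 hx' with h | h
    · subst h; exact h1 hx
    · exact hu x hx h

theorem Dc_re {α : Type} [Primcodable α] {s : α → ℕ} {u p : α → Info} (hs : Computable s)
    (hu : Computable u) (hp : Computable p) : REPred fun a => Dc (s a) (u a) (p a) := by
  unfold Dc
  refine RE.or (RE.and (RE.mem_list (by fun_prop) (by fun_prop)) (RE.eq hp hu)) (RE.or
    (RE.and (RE.mem_list (by fun_prop) (by fun_prop)) (RE.eq hp hu)) (RE.and (RE.and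
    (RE.not_mem_list (by fun_prop) (by fun_prop)) (RE.not_mem_list (by fun_prop) (by fun_prop)))
    (RE.eq hp (by fun_prop))))

/-- `q` is a consistent extension in the `s`-th set -/
def Gd (Z : Set ℕ) (f : ℕ × Info → ℕ) (s : ℕ) (p q : Info) : Prop :=
  f (s, q) ∈ Z ∧ Cons (p.1 ++ q.1, p.2 ++ q.2)

/-- the step relation -/
def St (Z : Set ℕ) (f g : ℕ × Info → ℕ) (s : ℕ) (p p' : Info) : Prop :=
  (∃ k : ℕ, ∃ q : Info, ((decode k : Option Info) = some q ∧ Gd Z f s p q) ∧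
    (∀ k' < k, (decode k' : Option Info) = none ∨ ∃ q' : Info,
      (decode k' : Option Info) = some q' ∧ ¬ Gd Z f s p q') ∧
      Dc s (p.1 ++ q.1, p.2 ++ q.2) p') ∨ (g (s, p) ∉ Z ∧ Dc s p p')

theorem Gd_re {α : Type} [Primcodable α] {f : ℕ × Info → ℕ} (hf : Computable f) {s : α → ℕ}
    {p q : α → Info} (hs : Computable s) (hp : Computable p) (hq : Computable q) :
    REIn Z fun a => Gd Z f (s a) (p a) (q a) := by
  unfold Gd
  refine REIn.and (REIn.mem (f := fun a => f (s a, q a)) (RE.ccomp hf (by fun_prop)))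
    (REIn.of_re (cons_re (f := fun a => ((p a).1 ++ (q a).1, (p a).2 ++ (q a).2))
      (by fun_prop)))

theorem Gd_not_re {α : Type} [Primcodable α] {f : ℕ × Info → ℕ} (hf : Computable f) {s : α → ℕ}
    {p q : α → Info} (hs : Computable s) (hp : Computable p) (hq : Computable q) :
    REIn Z fun a => ¬ Gd Z f (s a) (p a) (q a) := by
  have h : REIn Z fun a => f (s a, q a) ∉ Z ∨ ¬ Cons ((p a).1 ++ (q a).1, (p a).2 ++ (q a).2) := by
    refine REIn.or (REIn.not_mem (f := fun a => f (s a, q a)) (RE.ccomp hf (by fun_prop)))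
      (REIn.of_re (not_cons_re (f := fun a => ((p a).1 ++ (q a).1, (p a).2 ++ (q a).2))
        (by fun_prop)))
  refine h.of_eq fun a => ?_
  unfold Gd
  tauto

theorem St_re {f g : ℕ × Info → ℕ} (hf : Computable f) (hg : Computable g) :
    REIn Z fun x : ℕ × (Info × Info) => St Z f g x.1 x.2.1 x.2.2 := by
  unfold St
  refine REIn.or ?_ (REIn.and (REIn.not_mem (f := fun x : ℕ × (Info × Info) => g (x.1, x.2.1))
    (RE.ccomp hg (by fun_prop))) (REIn.of_re (Dc_re (by fun_prop) (by fun_prop) (by fun_prop))))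
  refine REIn.ex (S := fun (x : ℕ × (Info × Info)) (k : ℕ) => ∃ q : Info,
    ((decode k : Option Info) = some q ∧ Gd Z f x.1 x.2.1 q) ∧
    (∀ k' < k, (decode k' : Option Info) = none ∨ ∃ q' : Info,
      (decode k' : Option Info) = some q' ∧ ¬ Gd Z f x.1 x.2.1 q') ∧
      Dc x.1 (x.2.1.1 ++ q.1, x.2.1.2 ++ q.2) x.2.2) ?_
  refine REIn.ex (S := fun (y : (ℕ × (Info × Info)) × ℕ) (q : Info) =>
    ((decode y.2 : Option Info) = some q ∧ Gd Z f y.1.1 y.1.2.1 q) ∧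
    (∀ k' < y.2, (decode k' : Option Info) = none ∨ ∃ q' : Info,
      (decode k' : Option Info) = some q' ∧ ¬ Gd Z f y.1.1 y.1.2.1 q') ∧
      Dc y.1.1 (y.1.2.1.1 ++ q.1, y.1.2.1.2 ++ q.2) y.1.2.2) ?_
  refine REIn.and (REIn.and (REIn.of_re (RE.eq (by fun_prop) (by fun_prop)))
    (Gd_re hf (by fun_prop) (by fun_prop) (by fun_prop))) (REIn.and ?_
    (REIn.of_re (Dc_re (by fun_prop) (by fun_prop) (by fun_prop))))
  refine REIn.all_lt (S := fun (y : ((ℕ × (Info × Info)) × ℕ) × Info) (k' : ℕ) =>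
    (decode k' : Option Info) = none ∨ ∃ q' : Info,
      (decode k' : Option Info) = some q' ∧ ¬ Gd Z f y.1.1.1 y.1.1.2.1 q') ?_ (by fun_prop)
  refine REIn.or (REIn.of_re (RE.eq (by fun_prop) (by fun_prop))) ?_
  refine REIn.ex (S := fun (y : (((ℕ × (Info × Info)) × ℕ) × Info) × ℕ) (q' : Info) =>
      (decode y.2 : Option Info) = some q' ∧ ¬ Gd Z f y.1.1.1.1 y.1.1.1.2.1 q') ?_
  exact REIn.and (REIn.of_re (RE.eq (by fun_prop) (by fun_prop)))
    (Gd_not_re hf (by fun_prop) (by fun_prop) (by fun_prop))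

theorem St_uniq {f g : ℕ × Info → ℕ}
    (h : ∀ s p, g (s, p) ∈ Z ↔ ∃ q, f (s, q) ∈ Z ∧ Cons (p.1 ++ q.1, p.2 ++ q.2))
    {s : ℕ} {p p' p'' : Info} (h1 : St Z f g s p p') (h2 : St Z f g s p p'') : p' = p'' := by
  have aux : ∀ {k q k' q' : _}, ((decode k : Option Info) = some q ∧ Gd Z f s p q) →
      (∀ k₀ < k', (decode k₀ : Option Info) = none ∨ ∃ q' : Info,
        (decode k₀ : Option Info) = some q' ∧ ¬ Gd Z f s p q') →
      ((decode k' : Option Info) = some q' ∧ Gd Z f s p q') → k' ≤ k := by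
    intro k q k' q' hk hmin _
    by_contra hlt
    push Not at hlt
    rcases hmin k hlt with h3 | ⟨q₀, h3, h4⟩
    · rw [hk.1] at h3; simp at h3
    · rw [hk.1] at h3
      cases h3
      exact h4 hk.2
  rcases h1 with ⟨k, q, hkq, hmin, hD⟩ | ⟨hg, hD⟩
  · rcases h2 with ⟨k', q', hkq', hmin', hD'⟩ | ⟨hg', hD'⟩
    · have e1 : k = k' := le_antisymm (aux hkq' hmin hkq) (aux hkq hmin' hkq')
      subst e1
      have e2 : q = q' := by
        have := hkq.1.symm.trans hkq'.1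
        exact Option.some.inj this
      subst e2
      exact Dc_uniq hD hD'
    · exact absurd ((h s p).2 ⟨q, hkq.2⟩) hg'
  · rcases h2 with ⟨k', q', hkq', hmin', hD'⟩ | ⟨hg', hD'⟩
    · exact absurd ((h s p).2 ⟨q', hkq'.2⟩) hg
    · exact Dc_uniq hD hD'

theorem St_ex {f g : ℕ × Info → ℕ}
    (h : ∀ s p, g (s, p) ∈ Z ↔ ∃ q, f (s, q) ∈ Z ∧ Cons (p.1 ++ q.1, p.2 ++ q.2))
    (s : ℕ) (p : Info) : ∃ p', St Z f g s p p' := by
  classical
  by_cases hg : g (s, p) ∈ Z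
  · obtain ⟨q₀, hq₀⟩ := (h s p).1 hg
    have hex : ∃ k : ℕ, ∃ q : Info, (decode k : Option Info) = some q ∧ Gd Z f s p q :=
      ⟨encode q₀, q₀, encodek q₀, hq₀⟩
    obtain ⟨q, hq⟩ := Nat.find_spec hex
    obtain ⟨p', hp'⟩ := Dc_ex s (p.1 ++ q.1, p.2 ++ q.2)
    refine ⟨p', Or.inl ⟨Nat.find hex, q, hq, ?_, hp'⟩⟩
    intro k' hk'
    have hmin := Nat.find_min hex hk'
    rcases hd : (decode k' : Option Info) with _ | q'
    · exact Or.inl rfl
    · exact Or.inr ⟨q', rfl, fun hG => hmin ⟨q', hd, hG⟩⟩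
  · obtain ⟨p', hp'⟩ := Dc_ex s p
    exact ⟨p', Or.inr ⟨hg, hp'⟩⟩

/-- the graph of a sequence given by an enumerable step relation is enumerable -/
theorem graph_re {S : ℕ → Info → Info → Prop}
    (hS : REIn Z fun x : ℕ × (Info × Info) => S x.1 x.2.1 x.2.2) {P : ℕ → Info}
    (hP : ∀ s, S s (P s) (P (s + 1)))
    (huniq : ∀ s p p' p'', S s p p' → S s p p'' → p' = p'') :
    REIn Z fun x : ℕ × Info => P x.1 = x.2 := by
  have h1 : REIn Z fun x : ℕ × Info => ∃ L : List Info, (L[0]? = some (P 0) ∧ L[x.1]? = some x.2) ∧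
      ∀ i < x.1, ∃ y : Info × Info, (L[i]? = some y.1 ∧ L[i + 1]? = some y.2) ∧
        S i y.1 y.2 := by
    refine REIn.ex (S := fun (x : ℕ × Info) (L : List Info) =>
      (L[0]? = some (P 0) ∧ L[x.1]? = some x.2) ∧
      ∀ i < x.1, ∃ y : Info × Info, (L[i]? = some y.1 ∧ L[i + 1]? = some y.2) ∧
        S i y.1 y.2) ?_
    refine REIn.and (REIn.of_re (RE.and (RE.eq (by fun_prop) (by fun_prop))
      (RE.eq (by fun_prop) (by fun_prop)))) ?_
    refine REIn.all_lt (S := fun (x : (ℕ × Info) × List Info) (i : ℕ) =>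
      ∃ y : Info × Info, (x.2[i]? = some y.1 ∧ x.2[i + 1]? = some y.2) ∧ S i y.1 y.2) ?_
      (by fun_prop)
    refine REIn.ex (S := fun (x : ((ℕ × Info) × List Info) × ℕ) (y : Info × Info) =>
      (x.1.2[x.2]? = some y.1 ∧ x.1.2[x.2 + 1]? = some y.2) ∧ S x.2 y.1 y.2) ?_
    refine REIn.and (REIn.of_re (RE.and (RE.eq (by fun_prop) (by fun_prop))
      (RE.eq (by fun_prop) (by fun_prop)))) ?_
    exact hS.comp (f := fun z : (((ℕ × Info) × List Info) × ℕ) × (Info × Info) =>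
      (z.1.2, (z.2.1, z.2.2))) (by fun_prop)
  refine h1.of_eq ?_
  rintro ⟨s, x⟩
  dsimp only
  constructor
  · rintro ⟨L, ⟨h0, hs⟩, hstep⟩
    have h2 : ∀ i ≤ s, L[i]? = some (P i) := by
      intro i
      induction i with
      | zero => intro _; exact h0
      | succ i ih =>
        intro hi
        obtain ⟨⟨y, y'⟩, ⟨h3, h4⟩, h5⟩ := hstep i (by omega)
        dsimp only at h3 h4 h5
        have h6 := ih (by omega)
        rw [h3] at h6
        cases h6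
        rw [h4, huniq i _ _ _ h5 (hP i)]
    have h3 := h2 s le_rfl
    rw [hs] at h3
    exact (Option.some.inj h3).symm
  · rintro rfl
    refine ⟨(List.range (s + 1)).map P, ⟨?_, ?_⟩, ?_⟩
    · simp
    · simp
    · intro i hi
      refine ⟨(P i, P (i + 1)), ⟨?_, ?_⟩, hP i⟩
      · rw [List.getElem?_map, List.getElem?_range (by omega)]; rfl
      · rw [List.getElem?_map, List.getElem?_range (by omega)]; rfl

theorem generic_aux {f g : ℕ × Info → ℕ} (hf : Computable f) (hg : Computable g)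
    (h : ∀ s p, g (s, p) ∈ Z ↔ ∃ q, f (s, q) ∈ Z ∧ Cons (p.1 ++ q.1, p.2 ++ q.2)) :
    ∃ X : Set ℕ, Red X Z ∧ ∀ s, (∃ q, Ok X q ∧ f (s, q) ∈ Z) ∨
      ∃ p, Ok X p ∧ ∀ q, f (s, q) ∈ Z → ¬ Cons (app p q) := by
  choose nx hnx using St_ex h
  let P : ℕ → Info := fun s => Nat.rec ([], []) (fun s p => nx s p) s
  have hP : ∀ s, St Z f g s (P s) (P (s + 1)) := fun s => hnx s (P s)
  have hgr : REIn Z fun x : ℕ × Info => P x.1 = x.2 :=
    graph_re (St_re hf hg) hP fun s p p' p'' h1 h2 => St_uniq h h1 h2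
  -- consistency and monotonicity
  have hcons : ∀ s, Cons (P s) := by
    intro s
    induction s with
    | zero => intro x hx; exact absurd hx List.not_mem_nil
    | succ s ih =>
      rcases hP s with ⟨k, q, hkq, _, hD⟩ | ⟨_, hD⟩
      · exact (Dc_spec hD hkq.2.2).1
      · exact (Dc_spec hD ih).1
  have hstep : ∀ s, (∀ x ∈ (P s).1, x ∈ (P (s + 1)).1) ∧ (∀ x ∈ (P s).2, x ∈ (P (s + 1)).2) ∧
      (s ∈ (P (s + 1)).1 ∨ s ∈ (P (s + 1)).2) := by
    intro s
    rcases hP s with ⟨k, q, hkq, _, hD⟩ | ⟨_, hD⟩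
    · obtain ⟨_, h1, h2, h3⟩ := Dc_spec hD hkq.2.2
      exact ⟨fun x hx => h1 x (List.mem_append_left _ hx),
        fun x hx => h2 x (List.mem_append_left _ hx), h3⟩
    · obtain ⟨_, h1, h2, h3⟩ := Dc_spec hD (hcons s)
      exact ⟨h1, h2, h3⟩
  have hmono : ∀ s t, s ≤ t → (∀ x ∈ (P s).1, x ∈ (P t).1) ∧ (∀ x ∈ (P s).2, x ∈ (P t).2) := by
    intro s t hst
    induction t, hst using Nat.le_induction with
    | base => exact ⟨fun x hx => hx, fun x hx => hx⟩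
    | succ t _ ih =>
      exact ⟨fun x hx => (hstep t).1 x (ih.1 x hx), fun x hx => (hstep t).2.1 x (ih.2 x hx)⟩
  let X : Set ℕ := {n | n ∈ (P (n + 1)).1}
  have hX : ∀ n, n ∈ X ↔ n ∈ (P (n + 1)).1 := fun n => Iff.rfl
  have hok : ∀ s, Ok X (P s) := by
    intro s
    constructor
    · intro n hn
      rw [hX]
      rcases (hstep n).2.2 with h1 | h1
      · exact h1
      · exfalso
        exact hcons (max s (n + 1)) n ((hmono s _ (le_max_left _ _)).1 n hn)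
          ((hmono (n + 1) _ (le_max_right _ _)).2 n h1)
    · intro n hn h1
      rw [hX] at h1
      exact hcons (max s (n + 1)) n ((hmono (n + 1) _ (le_max_right _ _)).1 n h1)
          ((hmono s _ (le_max_left _ _)).2 n hn)
  refine ⟨X, ?_, ?_⟩
  · rw [Red_iff]
    constructor
    · have h1 : REIn Z fun n : ℕ => ∃ x : Info, P (n + 1) = x ∧ n ∈ x.1 := by
        refine REIn.ex (S := fun (n : ℕ) (x : Info) => P (n + 1) = x ∧ n ∈ x.1) ?_
        refine REIn.and (hgr.comp (f := fun y : ℕ × Info => (y.1 + 1, y.2)) (by fun_prop))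
          (REIn.of_re (RE.mem_list (by fun_prop) (by fun_prop)))
      refine h1.of_eq fun n => ?_
      rw [hX]
      simp
    · have h1 : REIn Z fun n : ℕ => ∃ x : Info, P (n + 1) = x ∧ n ∉ x.1 := by
        refine REIn.ex (S := fun (n : ℕ) (x : Info) => P (n + 1) = x ∧ n ∉ x.1) ?_
        refine REIn.and (hgr.comp (f := fun y : ℕ × Info => (y.1 + 1, y.2)) (by fun_prop))
          (REIn.of_re (RE.not_mem_list (by fun_prop) (by fun_prop)))
      refine h1.of_eq fun n => ?_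
      rw [hX]
      simp
  · intro s
    rcases hP s with ⟨k, q, hkq, _, hD⟩ | ⟨hgn, hD⟩
    · left
      obtain ⟨_, h1, h2, _⟩ := Dc_spec hD hkq.2.2
      refine ⟨q, ⟨fun x hx => ?_, fun x hx => ?_⟩, hkq.2.1⟩
      · exact (hok (s + 1)).1 x (h1 x (List.mem_append_right _ hx))
      · exact (hok (s + 1)).2 x (h2 x (List.mem_append_right _ hx))
    · right
      refine ⟨P s, hok s, fun q hq hc => hgn ((h s (P s)).2 ⟨q, hq, hc⟩)⟩

end generic_aux_5761

theorem exists_generic {R : ℕ → ℕ → Prop} (hR : WellFounded R)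
    (hRc : ComputablePred fun p : ℕ × ℕ => R p.1 p.2) (a : ℕ) :
    ∃ X : Set ℕ, Red X (H hR ∅ a) ∧ ∀ c, R c a → OneGen X (H hR ∅ c) := by
  set Z := H hR ∅ a with hZ
  have hmem : ∀ c e, 2 * Nat.pair c e + 1 ∈ Z ↔ R c a ∧ e ∈ jump (H hR ∅ c) := by
    intro c e
    rw [hZ, H_eq, mem_join_odd]
    simp only [Set.mem_ofPred_eq, Nat.unpair_pair]
  -- the two parameter functions
  obtain ⟨j, hj, hj'⟩ := smn (α := ℕ × Info) (β := Info)
    (P := fun x d => ∃ q : Info, W x.1 (encode (q, d)) ∧ Cons (x.2.1 ++ q.1, x.2.2 ++ q.2)) (by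
      refine RE.ex (p := fun (y : (ℕ × Info) × Info) (q : Info) =>
        W y.1.1 (encode (q, y.2)) ∧ Cons (y.1.2.1 ++ q.1, y.1.2.2 ++ q.2)) ?_
      refine RE.and ?_ (cons_re (by fun_prop))
      exact RE.comp W_re (f := fun z : ((ℕ × Info) × Info) × Info =>
        (z.1.1.1, encode (z.2, z.1.2))) (by fun_prop))
  obtain ⟨i, hi, hi'⟩ := smn (α := ℕ × Info) (β := Info)
    (P := fun x d => W x.1 (encode (x.2, d))) (by
      exact RE.comp W_re (f := fun z : (ℕ × Info) × Info =>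
        (z.1.1, encode (z.1.2, z.2))) (by fun_prop))
  have hji : ∀ (A : Set ℕ) e p, j (e, p) ∈ jump A ↔
      ∃ q : Info, i (e, q) ∈ jump A ∧ Cons (p.1 ++ q.1, p.2 ++ q.2) := by
    intro A e p
    constructor
    · rintro ⟨d, hd, hW⟩
      obtain ⟨q, hq, hc⟩ := (hj' (e, p) d).1 hW
      exact ⟨q, ⟨d, hd, (hi' (e, q) d).2 hq⟩, hc⟩
    · rintro ⟨q, ⟨d, hd, hW⟩, hc⟩
      exact ⟨d, hd, (hj' (e, p) d).2 ⟨q, (hi' (e, q) d).1 hW, hc⟩⟩
  obtain ⟨X, hX1, hX2⟩ := generic_aux (Z := Z)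
    (f := fun x : ℕ × Info => 2 * Nat.pair x.1.unpair.1 (i (x.1.unpair.2, x.2)) + 1)
    (g := fun x : ℕ × Info => 2 * Nat.pair x.1.unpair.1 (j (x.1.unpair.2, x.2)) + 1)
    (by
      have h1 : Computable fun x : ℕ × Info => i (x.1.unpair.2, x.2) :=
        RE.ccomp hi (by fun_prop)
      fun_prop)
    (by
      have h1 : Computable fun x : ℕ × Info => j (x.1.unpair.2, x.2) :=
        RE.ccomp hj (by fun_prop)
      fun_prop)
    (by
      intro s p
      dsimp only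
      rw [hmem, hji]
      constructor
      · rintro ⟨h1, q, h2, h3⟩
        exact ⟨q, (hmem _ _).2 ⟨h1, h2⟩, h3⟩
      · rintro ⟨q, h1, h3⟩
        obtain ⟨h4, h5⟩ := (hmem _ _).1 h1
        exact ⟨h4, q, h5, h3⟩)
  refine ⟨X, hX1, ?_⟩
  intro c hc V hV
  obtain ⟨R', hR', hV'⟩ := hV
  obtain ⟨e, -, he⟩ := smn (α := ℕ) (β := Info × Info) (P := fun _ y => R' y.1 y.2)
    (RE.comp hR' (f := fun x : ℕ × (Info × Info) => x.2) (by fun_prop))
  have hVi : ∀ q, V q ↔ 2 * Nat.pair c (i (e 0, q)) + 1 ∈ Z := by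
    intro q
    rw [hmem, hV']
    constructor
    · rintro ⟨d, h1, h2⟩
      exact ⟨hc, d, h2, (hi' (e 0, q) d).2 ((he 0 (q, d)).2 h1)⟩
    · rintro ⟨_, d, h2, h1⟩
      exact ⟨d, (he 0 (q, d)).1 ((hi' (e 0, q) d).1 h1), h2⟩
  have h1 := hX2 (Nat.pair c (e 0))
  simp only [Nat.unpair_pair] at h1
  rcases h1 with ⟨q, h2, h3⟩ | ⟨p, h2, h3⟩
  · exact Or.inl ⟨q, h2, (hVi q).2 h3⟩
  · exact Or.inr ⟨p, h2, fun q hq => h3 q ((hVi q).1 hq)⟩

end Pool.Agent.Helper578.JD
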