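import Pool.Agent.KS6_49.L8.Helper578.JD.LemU

/-!
The hierarchy is monotone, and it is computed from `X` and the hierarchy on the empty set when `X`
is sufficiently generic.
-/

namespace Pool.Agent.Helper578.JD

open Encodable Oracle RE Defs
open Nat.Partrec (Code)

variable {R : ℕ → ℕ → Prop}

theorem mem_H_odd (hR : WellFounded R) (X : Set ℕ) (b d m : ℕ) :
    2 * Nat.pair d m + 1 ∈ H hR X b ↔ R d b ∧ m ∈ jump (H hR X d) := by
  rw [H_eq, mem_join_odd]
  simp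

theorem mem_H_even (hR : WellFounded R) (X : Set ℕ) (b n : ℕ) :
    2 * n ∈ H hR X b ↔ n ∈ X := by
  rw [H_eq, mem_join_even]

theorem Red_H (hR : WellFounded R) (X : Set ℕ) (b : ℕ) : Red X (H hR X b) := by
  rw [H_eq]
  exact Red_join_left _ _

theorem Red_H_of_lt (hR : WellFounded R) (X : Set ℕ) {d b : ℕ} (h : R d b) :
    Red (H hR X d) (H hR X b) := by
  refine (Red_jump _).trans ?_
  rw [Red_iff]
  refine ⟨(REIn.mem (f := fun m => 2 * Nat.pair d m + 1) (by fun_prop)).of_eq fun m => ?_,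
    (REIn.not_mem (f := fun m => 2 * Nat.pair d m + 1) (by fun_prop)).of_eq fun m => ?_⟩
  · rw [mem_H_odd]; exact and_iff_right h
  · rw [mem_H_odd]; exact not_congr (and_iff_right h)

/-- `2 y` is in the list for all `y` of the other list. -/
theorem re_even_sub {α : Type*} [Primcodable α] {f g : α → List ℕ} (hf : Computable f)
    (hg : Computable g) : REPred fun a => ∀ y ∈ f a, 2 * y ∈ g a := by
  refine RE.all_mem (p := fun a y => 2 * y ∈ g a) (l := f) ?_ hf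
  exact RE.mem_list (f := fun x : α × ℕ => 2 * x.2) (l := fun x : α × ℕ => g x.1) (by fun_prop)
    (by fun_prop)

theorem H_mono (hR : WellFounded R) (hRc : ComputablePred fun p : ℕ × ℕ => R p.1 p.2)
    {X Y : Set ℕ} (h : Red X Y) (b : ℕ) : Red (H hR X b) (H hR Y b) := by
  rw [Red_iff] at h
  obtain ⟨⟨Rp, hRp, hp⟩, ⟨Rm, hRm, hm⟩⟩ := h
  refine lemU hR hRc X (H hR Y) Set.univ (fun _ _ _ _ => trivial)
    (fun x => ∃ c0 : Info, ((x.1.2.2 = true ∧ Rp x.1.2.1 c0) ∨ (x.1.2.2 = false ∧ Rm x.1.2.1 c0)) ∧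
      (∀ y ∈ c0.1, 2 * y ∈ x.2.1) ∧ ∀ y ∈ c0.2, 2 * y ∈ x.2.2) ?_ ?_
    (fun x => (x.1.2.2.2 = true ∧ 2 * Nat.pair x.1.2.1 x.1.2.2.1 + 1 ∈ x.2.1) ∨
      (x.1.2.2.2 = false ∧ 2 * Nat.pair x.1.2.1 x.1.2.2.1 + 1 ∈ x.2.2)) ?_ ?_ b trivial
  · refine RE.ex (p := fun (x : (ℕ × ℕ × Bool) × Info) (c0 : Info) =>
      ((x.1.2.2 = true ∧ Rp x.1.2.1 c0) ∨ (x.1.2.2 = false ∧ Rm x.1.2.1 c0)) ∧
      (∀ y ∈ c0.1, 2 * y ∈ x.2.1) ∧ ∀ y ∈ c0.2, 2 * y ∈ x.2.2) ?_
    refine RE.and (RE.or (RE.and (RE.eq (by fun_prop) (by fun_prop)) ?_)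
      (RE.and (RE.eq (by fun_prop) (by fun_prop)) ?_))
      (RE.and (re_even_sub (by fun_prop) (by fun_prop)) (re_even_sub (by fun_prop) (by fun_prop)))
    · exact RE.comp hRp (f := fun x : ((ℕ × ℕ × Bool) × Info) × Info => (x.1.1.2.1, x.2))
        (by fun_prop)
    · exact RE.comp hRm (f := fun x : ((ℕ × ℕ × Bool) × Info) × Info => (x.1.1.2.1, x.2))
        (by fun_prop)
  · intro b _ n t
    have key : ∀ c0 : Info, (∃ c : Info, ((∀ y ∈ c0.1, 2 * y ∈ c.1) ∧ ∀ y ∈ c0.2, 2 * y ∈ c.2) ∧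
        Ok (H hR Y b) c) ↔ Ok Y c0 := by
      intro c0
      constructor
      · rintro ⟨c, ⟨h1, h2⟩, h3⟩
        exact ⟨fun y hy => (mem_H_even hR Y b y).1 (h3.1 _ (h1 y hy)),
          fun y hy h4 => h3.2 _ (h2 y hy) ((mem_H_even hR Y b y).2 h4)⟩
      · intro h
        refine ⟨(c0.1.map (2 * ·), c0.2.map (2 * ·)), ⟨?_, ?_⟩, ⟨?_, ?_⟩⟩
        · intro y hy; exact List.mem_map.2 ⟨y, hy, rfl⟩
        · intro y hy; exact List.mem_map.2 ⟨y, hy, rfl⟩
        · intro x hx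
          obtain ⟨y, hy, rfl⟩ := List.mem_map.1 hx
          exact (mem_H_even hR Y b y).2 (h.1 y hy)
        · intro x hx
          obtain ⟨y, hy, rfl⟩ := List.mem_map.1 hx
          exact fun h4 => h.2 y hy ((mem_H_even hR Y b y).1 h4)
    have hstep : (∃ c : Info, (∃ c0 : Info, ((t = true ∧ Rp n c0) ∨ (t = false ∧ Rm n c0)) ∧
        (∀ y ∈ c0.1, 2 * y ∈ c.1) ∧ ∀ y ∈ c0.2, 2 * y ∈ c.2) ∧ Ok (H hR Y b) c) ↔
        ∃ c0 : Info, ((t = true ∧ Rp n c0) ∨ (t = false ∧ Rm n c0)) ∧ Ok Y c0 := by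
      constructor
      · rintro ⟨c, ⟨c0, h1, h2⟩, h3⟩
        exact ⟨c0, h1, (key c0).1 ⟨c, h2, h3⟩⟩
      · rintro ⟨c0, h1, h2⟩
        obtain ⟨c, h3, h4⟩ := (key c0).2 h2
        exact ⟨c, ⟨c0, h1, h3⟩, h4⟩
    refine hstep.trans ?_
    cases t
    · simp only [Bool.false_eq_true, false_and, false_or, true_and, false_iff]
      exact (hm n).symm
    · simp only [true_and, Bool.true_eq_false, false_and, or_false, true_iff]
      exact (hp n).symm
  · refine RE.or (RE.and (RE.eq (by fun_prop) (by fun_prop)) ?_)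
      (RE.and (RE.eq (by fun_prop) (by fun_prop)) ?_)
    · exact RE.mem_list (by fun_prop) (by fun_prop)
    · exact RE.mem_list (by fun_prop) (by fun_prop)
  · intro b _ d hd m t
    cases t
    · simp only [Bool.false_eq_true, false_and, false_or, true_and, false_iff]
      constructor
      · rintro ⟨c, h1, h2⟩ h3
        exact h2.2 _ h1 ((mem_H_odd hR Y b d m).2 ⟨hd, h3⟩)
      · intro h3
        refine ⟨([], [2 * Nat.pair d m + 1]), by simp, ⟨by simp, ?_⟩⟩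
        intro x hx h4
        rw [List.mem_singleton.1 hx] at h4
        exact h3 ((mem_H_odd hR Y b d m).1 h4).2
    · simp only [true_and, Bool.true_eq_false, false_and, or_false, true_iff]
      constructor
      · rintro ⟨c, h1, h2⟩
        exact ((mem_H_odd hR Y b d m).1 (h2.1 _ h1)).2
      · intro h3
        refine ⟨([2 * Nat.pair d m + 1], []), by simp, ⟨?_, by simp⟩⟩
        intro x hx
        rw [List.mem_singleton.1 hx]
        exact (mem_H_odd hR Y b d m).2 ⟨hd, h3⟩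

end Pool.Agent.Helper578.JD
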