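import Pool.Agent.KS6_49.L8.Helper578.JD.Forcing
import Pool.Agent.KS6_49.L8.Helper578.JD.Exist

/-!
The hierarchy over a sufficiently generic set is computed by the set and the hierarchy over the
empty set.
-/

namespace Pool.Agent.Helper578.JD

namespace HG

open Encodable Oracle RE Defs
open Nat.Partrec (Code)

variable {R : ℕ → ℕ → Prop}

theorem ok_even {X Z : Set ℕ} {p : Info} : ((∀ y ∈ p.1, 2 * y ∈ join X Z) ∧
    ∀ y ∈ p.2, 2 * y ∉ join X Z) ↔ Ok X p := by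
  simp only [mem_join_even]
  exact Iff.rfl

/-- `c'` is correct for the join of two sets if `p` and `w` are correct for them. -/
def Spl (c p w : Info) : Prop :=
  (∀ y ∈ c.1, (y % 2 = 0 ∧ y / 2 ∈ p.1) ∨ (y % 2 = 1 ∧ y / 2 ∈ w.1)) ∧
    ∀ y ∈ c.2, (y % 2 = 0 ∧ y / 2 ∈ p.2) ∨ (y % 2 = 1 ∧ y / 2 ∈ w.2)

theorem cmod2 {α : Type*} [Primcodable α] {f : α → ℕ} (hf : Computable f) :
    Computable (fun x => f x % 2) :=
  Primrec.nat_mod.to_comp.comp hf (Computable.const 2)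

theorem cdiv2 {α : Type*} [Primcodable α] {f : α → ℕ} (hf : Computable f) :
    Computable (fun x => f x / 2) :=
  Primrec.nat_div.to_comp.comp hf (Computable.const 2)

theorem Spl_re : REPred fun x : Info × Info × Info => Spl x.1 x.2.1 x.2.2 := by
  refine RE.and ?_ ?_
  · refine RE.all_mem (p := fun (x : Info × Info × Info) y =>
      (y % 2 = 0 ∧ y / 2 ∈ x.2.1.1) ∨ (y % 2 = 1 ∧ y / 2 ∈ x.2.2.1)) (l := fun x => x.1.1) ?_
      (by fun_prop)
    refine RE.or (RE.and (RE.eq (cmod2 (by fun_prop)) (by fun_prop))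
      (RE.mem_list (cdiv2 (by fun_prop)) (by fun_prop))) (RE.and (RE.eq (cmod2 (by fun_prop))
      (by fun_prop)) (RE.mem_list (cdiv2 (by fun_prop)) (by fun_prop)))
  · refine RE.all_mem (p := fun (x : Info × Info × Info) y =>
      (y % 2 = 0 ∧ y / 2 ∈ x.2.1.2) ∨ (y % 2 = 1 ∧ y / 2 ∈ x.2.2.2)) (l := fun x => x.1.2) ?_
      (by fun_prop)
    refine RE.or (RE.and (RE.eq (cmod2 (by fun_prop)) (by fun_prop))
      (RE.mem_list (cdiv2 (by fun_prop)) (by fun_prop))) (RE.and (RE.eq (cmod2 (by fun_prop))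
      (by fun_prop)) (RE.mem_list (cdiv2 (by fun_prop)) (by fun_prop)))

theorem Spl_ok {X Z : Set ℕ} {c p w : Info} (h : Spl c p w) (hp : Ok X p) (hw : Ok Z w) :
    Ok (join X Z) c := by
  constructor
  · intro y hy
    rcases h.1 y hy with ⟨h1, h2⟩ | ⟨h1, h2⟩
    · exact Or.inl ⟨h1, hp.1 _ h2⟩
    · exact Or.inr ⟨h1, hw.1 _ h2⟩
  · rintro y hy (⟨h3, h4⟩ | ⟨h3, h4⟩)
    · rcases h.2 y hy with ⟨h1, h2⟩ | ⟨h1, h2⟩
      · exact hp.2 _ h2 h4
      · omega
    · rcases h.2 y hy with ⟨h1, h2⟩ | ⟨h1, h2⟩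
      · omega
      · exact hw.2 _ h2 h4

/-- The part of the information about the left (`t = 0`) or right (`t = 1`) set. -/
def prt (t : ℕ) (c : Info) : Info :=
  ((c.1.filter fun y => y % 2 = t).map (· / 2), (c.2.filter fun y => y % 2 = t).map (· / 2))

theorem Spl_prt (c : Info) : Spl c (prt 0 c) (prt 1 c) := by
  constructor
  · intro y hy
    rcases Nat.mod_two_eq_zero_or_one y with h | h
    · exact Or.inl ⟨h, List.mem_map.2 ⟨y, List.mem_filter.2 ⟨hy, by simpa using h⟩, rfl⟩⟩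
    · exact Or.inr ⟨h, List.mem_map.2 ⟨y, List.mem_filter.2 ⟨hy, by simpa using h⟩, rfl⟩⟩
  · intro y hy
    rcases Nat.mod_two_eq_zero_or_one y with h | h
    · exact Or.inl ⟨h, List.mem_map.2 ⟨y, List.mem_filter.2 ⟨hy, by simpa using h⟩, rfl⟩⟩
    · exact Or.inr ⟨h, List.mem_map.2 ⟨y, List.mem_filter.2 ⟨hy, by simpa using h⟩, rfl⟩⟩

theorem prt_ok0 {X Z : Set ℕ} {c : Info} (h : Ok (join X Z) c) : Ok X (prt 0 c) := by
  constructor
  · intro x hx
    obtain ⟨y, hy, rfl⟩ := List.mem_map.1 hx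
    obtain ⟨h1, h2⟩ := List.mem_filter.1 hy
    have h3 : y % 2 = 0 := by simpa using h2
    rcases h.1 y h1 with ⟨h4, h5⟩ | ⟨h4, h5⟩
    · exact h5
    · omega
  · intro x hx h6
    obtain ⟨y, hy, rfl⟩ := List.mem_map.1 hx
    obtain ⟨h1, h2⟩ := List.mem_filter.1 hy
    have h3 : y % 2 = 0 := by simpa using h2
    exact h.2 y h1 (Or.inl ⟨h3, h6⟩)

theorem prt_ok1 {X Z : Set ℕ} {c : Info} (h : Ok (join X Z) c) : Ok Z (prt 1 c) := by
  constructor
  · intro x hx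
    obtain ⟨y, hy, rfl⟩ := List.mem_map.1 hx
    obtain ⟨h1, h2⟩ := List.mem_filter.1 hy
    have h3 : y % 2 = 1 := by simpa using h2
    rcases h.1 y h1 with ⟨h4, h5⟩ | ⟨h4, h5⟩
    · omega
    · exact h5
  · intro x hx h6
    obtain ⟨y, hy, rfl⟩ := List.mem_map.1 hx
    obtain ⟨h1, h2⟩ := List.mem_filter.1 hy
    have h3 : y % 2 = 1 := by simpa using h2
    exact h.2 y h1 (Or.inr ⟨h3, h6⟩)

/-- The condition `p` together with `w` puts `m` into the jump of the join. -/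
def V (m : ℕ) (p w : Info) : Prop := ∃ c : Info, W m (encode c) ∧ Spl c p w

theorem V_re : REPred fun x : ℕ × Info × Info => V x.1 x.2.1 x.2.2 := by
  refine RE.ex (p := fun (x : ℕ × Info × Info) (c : Info) => W x.1 (encode c) ∧ Spl c x.2.1 x.2.2) ?_
  refine RE.and (RE.comp W_re (f := fun x : (ℕ × Info × Info) × Info => (x.1.1, encode x.2))
    (by fun_prop)) ?_
  exact RE.comp Spl_re (f := fun x : (ℕ × Info × Info) × Info => (x.2, x.1.2.1, x.1.2.2))
    (by fun_prop)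

theorem mem_jump_join {X Z : Set ℕ} {m : ℕ} :
    m ∈ jump (join X Z) ↔ ∃ p, Ok X p ∧ ∃ w, Ok Z w ∧ V m p w := by
  constructor
  · rintro ⟨c, h1, h2⟩
    exact ⟨prt 0 c, prt_ok0 h1, prt 1 c, prt_ok1 h1, c, h2, Spl_prt c⟩
  · rintro ⟨p, hp, w, hw, c, h1, h2⟩
    exact ⟨c, Spl_ok h2 hp hw, h1⟩

theorem V_REIn (Z : Set ℕ) (m : ℕ) : REIn Z fun p : Info => ∃ w, Ok Z w ∧ V m p w := by
  refine ⟨fun p w => V m p w, ?_, fun p => ?_⟩
  · exact RE.comp V_re (f := fun x : Info × Info => (m, x.1, x.2)) (by fun_prop)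
  · constructor
    · rintro ⟨w, h1, h2⟩; exact ⟨w, h2, h1⟩
    · rintro ⟨w, h1, h2⟩; exact ⟨w, h2, h1⟩

theorem not_mem_jump_join {X Z : Set ℕ} (hX : OneGen X Z) {m : ℕ} :
    m ∉ jump (join X Z) ↔ ∃ p, Ok X p ∧ ¬ ∃ w, Ok Z w ∧ ∃ q, Cons (app p q) ∧ V m q w := by
  rw [mem_jump_join]
  constructor
  · intro h
    rcases hX _ (V_REIn Z m) with ⟨p, hp, h1⟩ | ⟨p, hp, h1⟩
    · exact absurd ⟨p, hp, h1⟩ h
    · refine ⟨p, hp, ?_⟩
      rintro ⟨w, hw, q, h2, h3⟩
      exact h1 q ⟨w, hw, h3⟩ h2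
  · rintro ⟨p, hp, h⟩ ⟨q, hq, w, hw, h1⟩
    exact h ⟨w, hw, q, okCons (okApp hp hq), h1⟩

theorem ccons {α : Type} [Primcodable α] {f g : α → Info} (hf : Computable f) (hg : Computable g) :
    REPred fun a => Cons (app (f a) (g a)) := by
  refine RE.all_mem (p := fun a x => x ∉ (app (f a) (g a)).2) (l := fun a => (app (f a) (g a)).1)
    ?_ ?_
  · refine RE.not_mem_list (f := fun x : α × ℕ => x.2)
      (l := fun x : α × ℕ => (f x.1).2 ++ (g x.1).2) (by fun_prop) ?_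
    have hf' : Computable fun x : α × ℕ => f x.1 := hf.comp Computable.fst
    have hg' : Computable fun x : α × ℕ => g x.1 := hg.comp Computable.fst
    exact Computable.list_append.comp (Computable.snd.comp hf') (Computable.snd.comp hg')
  · exact Computable.list_append.comp (Computable.fst.comp hf) (Computable.fst.comp hg)

theorem frm {α : Type} [Primcodable α] {f g : α → ℕ} (hf : Computable f) (hg : Computable g) :
    Computable fun a => 2 * (2 * Nat.pair (f a) (g a) + 1) + 1 := by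
  fun_prop

theorem H_generic (hR : WellFounded R) (hRc : ComputablePred fun p : ℕ × ℕ => R p.1 p.2)
    (htr : ∀ x y z, R x y → R y z → R x z) {X : Set ℕ} {b : ℕ}
    (hX : ∀ c, R c b → OneGen X (H hR ∅ c)) :
    Red (H hR X b) (join X (H hR ∅ b)) := by
  obtain ⟨j, hj, hj'⟩ := smn (α := ℕ × Info) (β := Info) (P := fun x w => V x.1 x.2 w)
    (RE.comp V_re (f := fun x : (ℕ × Info) × Info => (x.1.1, x.1.2, x.2)) (by fun_prop))
  obtain ⟨k, hk, hk'⟩ := smn (α := ℕ × Info) (β := Info)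
    (P := fun x w => ∃ q, Cons (app x.2 q) ∧ V x.1 q w) (by
      refine RE.ex (p := fun (y : (ℕ × Info) × Info) (q : Info) => Cons (app y.1.2 q) ∧
        V y.1.1 q y.2) ?_
      refine RE.and (ccons (by fun_prop) (by fun_prop)) ?_
      exact RE.comp V_re (f := fun x : ((ℕ × Info) × Info) × Info => (x.1.1.1, x.2, x.1.2))
        (by fun_prop))
  -- semantic meaning of the two parameter functions
  have sj : ∀ (d m : ℕ) (p : Info) (b' : ℕ), R d b' →
      (2 * (2 * Nat.pair d (j (m, p)) + 1) + 1 ∈ join X (H hR ∅ b') ↔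
        ∃ w, Ok (H hR ∅ d) w ∧ V m p w) := by
    intro d m p b' hd
    rw [mem_join_odd, mem_H_odd]
    simp only [hd, true_and]
    constructor
    · rintro ⟨w, h1, h2⟩; exact ⟨w, h1, (hj' (m, p) w).1 h2⟩
    · rintro ⟨w, h1, h2⟩; exact ⟨w, h1, (hj' (m, p) w).2 h2⟩
  have sk : ∀ (d m : ℕ) (p : Info) (b' : ℕ), R d b' →
      (2 * (2 * Nat.pair d (k (m, p)) + 1) + 1 ∈ join X (H hR ∅ b') ↔
        ∃ w, Ok (H hR ∅ d) w ∧ ∃ q, Cons (app p q) ∧ V m q w) := by
    intro d m p b' hd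
    rw [mem_join_odd, mem_H_odd]
    simp only [hd, true_and]
    constructor
    · rintro ⟨w, h1, h2⟩; exact ⟨w, h1, (hk' (m, p) w).1 h2⟩
    · rintro ⟨w, h1, h2⟩; exact ⟨w, h1, (hk' (m, p) w).2 h2⟩
  have hj2 : Computable fun x : ((ℕ × ℕ × ℕ × Bool) × Info) × Info =>
      2 * (2 * Nat.pair x.1.1.2.1 (j (x.1.1.2.2.1, x.2)) + 1) + 1 := by
    have h0 : Computable fun x : ((ℕ × ℕ × ℕ × Bool) × Info) × Info => j (x.1.1.2.2.1, x.2) :=
      hj.comp (by fun_prop)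
    exact frm (by fun_prop) h0
  have hk2 : Computable fun x : ((ℕ × ℕ × ℕ × Bool) × Info) × Info =>
      2 * (2 * Nat.pair x.1.1.2.1 (k (x.1.1.2.2.1, x.2)) + 1) + 1 := by
    have h0 : Computable fun x : ((ℕ × ℕ × ℕ × Bool) × Info) × Info => k (x.1.1.2.2.1, x.2) :=
      hk.comp (by fun_prop)
    exact frm (by fun_prop) h0
  refine lemU hR hRc X (fun b' => join X (H hR ∅ b')) {b' | b' = b ∨ R b' b} ?_
    (fun x => (x.1.2.2 = true ∧ 2 * x.1.2.1 ∈ x.2.1) ∨ (x.1.2.2 = false ∧ 2 * x.1.2.1 ∈ x.2.2))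
    ?_ ?_
    (fun x => (x.1.2.2.2 = true ∧ ∃ p : Info, ((∀ y ∈ p.1, 2 * y ∈ x.2.1) ∧
        ∀ y ∈ p.2, 2 * y ∈ x.2.2) ∧
        2 * (2 * Nat.pair x.1.2.1 (j (x.1.2.2.1, p)) + 1) + 1 ∈ x.2.1) ∨
      (x.1.2.2.2 = false ∧ ∃ p : Info, ((∀ y ∈ p.1, 2 * y ∈ x.2.1) ∧
        ∀ y ∈ p.2, 2 * y ∈ x.2.2) ∧
        2 * (2 * Nat.pair x.1.2.1 (k (x.1.2.2.1, p)) + 1) + 1 ∈ x.2.2)) ?_ ?_ b (Or.inl rfl)
  · rintro b' (rfl | hb') c hc
    · exact Or.inr hc
    · exact Or.inr (htr _ _ _ hc hb')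
  · refine RE.or (RE.and (RE.eq (by fun_prop) (by fun_prop)) ?_)
      (RE.and (RE.eq (by fun_prop) (by fun_prop)) ?_)
    · exact RE.mem_list (by fun_prop) (by fun_prop)
    · exact RE.mem_list (by fun_prop) (by fun_prop)
  · intro b' _ n t
    cases t
    · simp only [Bool.false_eq_true, false_and, false_or, true_and, false_iff]
      constructor
      · rintro ⟨c, h1, h2⟩ h3
        exact h2.2 _ h1 (mem_join_even.2 h3)
      · intro h3
        refine ⟨([], [2 * n]), by simp, ⟨by simp, ?_⟩⟩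
        intro x hx h4
        rw [List.mem_singleton.1 hx] at h4
        exact h3 (mem_join_even.1 h4)
    · simp only [true_and, Bool.true_eq_false, false_and, or_false, true_iff]
      constructor
      · rintro ⟨c, h1, h2⟩
        exact mem_join_even.1 (h2.1 _ h1)
      · intro h3
        refine ⟨([2 * n], []), by simp, ⟨?_, by simp⟩⟩
        intro x hx
        rw [List.mem_singleton.1 hx]
        exact mem_join_even.2 h3
  · refine RE.or (RE.and (RE.eq (by fun_prop) (by fun_prop)) ?_)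
      (RE.and (RE.eq (by fun_prop) (by fun_prop)) ?_)
    · refine RE.ex (p := fun (x : (ℕ × ℕ × ℕ × Bool) × Info) (p : Info) =>
        ((∀ y ∈ p.1, 2 * y ∈ x.2.1) ∧ ∀ y ∈ p.2, 2 * y ∈ x.2.2) ∧
        2 * (2 * Nat.pair x.1.2.1 (j (x.1.2.2.1, p)) + 1) + 1 ∈ x.2.1) ?_
      exact RE.and (RE.and (re_even_sub (by fun_prop) (by fun_prop))
        (re_even_sub (by fun_prop) (by fun_prop))) (RE.mem_list hj2 (by fun_prop))
    · refine RE.ex (p := fun (x : (ℕ × ℕ × ℕ × Bool) × Info) (p : Info) =>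
        ((∀ y ∈ p.1, 2 * y ∈ x.2.1) ∧ ∀ y ∈ p.2, 2 * y ∈ x.2.2) ∧
        2 * (2 * Nat.pair x.1.2.1 (k (x.1.2.2.1, p)) + 1) + 1 ∈ x.2.2) ?_
      exact RE.and (RE.and (re_even_sub (by fun_prop) (by fun_prop))
        (re_even_sub (by fun_prop) (by fun_prop))) (RE.mem_list hk2 (by fun_prop))
  · intro b' hb' d hd m t
    have hdb : R d b := by
      rcases hb' with rfl | h
      · exact hd
      · exact htr _ _ _ hd h
    cases t
    · simp only [Bool.false_eq_true, false_and, false_or, true_and, false_iff]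
      rw [not_mem_jump_join (hX d hdb)]
      constructor
      · rintro ⟨c, ⟨p, ⟨h1, h2⟩, h3⟩, h4⟩
        refine ⟨p, ok_even.1 ⟨fun y hy => h4.1 _ (h1 y hy), fun y hy => h4.2 _ (h2 y hy)⟩, ?_⟩
        rw [← sk d m p b' hd]
        exact h4.2 _ h3
      · rintro ⟨p, hp, h5⟩
        rw [← sk d m p b' hd] at h5
        obtain ⟨h6, h7⟩ := (ok_even (Z := H hR ∅ b')).2 hp
        refine ⟨(p.1.map (2 * ·), (2 * (2 * Nat.pair d (k (m, p)) + 1) + 1) ::
          p.2.map (2 * ·)), ⟨p, ⟨?_, ?_⟩, ?_⟩, ⟨?_, ?_⟩⟩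
        · intro y hy; exact List.mem_map.2 ⟨y, hy, rfl⟩
        · intro y hy; exact List.mem_cons_of_mem _ (List.mem_map.2 ⟨y, hy, rfl⟩)
        · exact List.mem_cons_self
        · intro x hx
          obtain ⟨y, hy, rfl⟩ := List.mem_map.1 hx
          exact h6 y hy
        · intro x hx
          rcases List.mem_cons.1 hx with rfl | hx
          · exact h5
          · obtain ⟨y, hy, rfl⟩ := List.mem_map.1 hx
            exact h7 y hy
    · simp only [true_and, Bool.true_eq_false, false_and, or_false, true_iff]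
      rw [mem_jump_join]
      constructor
      · rintro ⟨c, ⟨p, ⟨h1, h2⟩, h3⟩, h4⟩
        refine ⟨p, ok_even.1 ⟨fun y hy => h4.1 _ (h1 y hy), fun y hy => h4.2 _ (h2 y hy)⟩, ?_⟩
        rw [← sj d m p b' hd]
        exact h4.1 _ h3
      · rintro ⟨p, hp, h5⟩
        rw [← sj d m p b' hd] at h5
        obtain ⟨h6, h7⟩ := (ok_even (Z := H hR ∅ b')).2 hp
        refine ⟨((2 * (2 * Nat.pair d (j (m, p)) + 1) + 1) :: p.1.map (2 * ·),
          p.2.map (2 * ·)), ⟨p, ⟨?_, ?_⟩, ?_⟩, ⟨?_, ?_⟩⟩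
        · intro y hy; exact List.mem_cons_of_mem _ (List.mem_map.2 ⟨y, hy, rfl⟩)
        · intro y hy; exact List.mem_map.2 ⟨y, hy, rfl⟩
        · exact List.mem_cons_self
        · intro x hx
          rcases List.mem_cons.1 hx with rfl | hx
          · exact h5
          · obtain ⟨y, hy, rfl⟩ := List.mem_map.1 hx
            exact h6 y hy
        · intro x hx
          obtain ⟨y, hy, rfl⟩ := List.mem_map.1 hx
          exact h7 y hy

end HG

end Pool.Agent.Helper578.JD
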