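import Pool.Agent.KS6_49.L8.Helper578.JD.Core



namespace Pool.Agent.Helper578.JD

open Encodable Oracle RE Defs
open Nat.Partrec (Code)

/-- Division of computable functions is computable. -/
theorem lemU_div {α : Type*} [Primcodable α] {f g : α → ℕ} (hf : Computable f)
    (hg : Computable g) : Computable (fun x => f x / g x) :=
  Primrec.nat_div.to_comp.comp hf hg

/-- Remainders of computable functions are computable. -/
theorem lemU_mod {α : Type*} [Primcodable α] {f g : α → ℕ} (hf : Computable f)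
    (hg : Computable g) : Computable (fun x => f x % g x) :=
  Primrec.nat_mod.to_comp.comp hf hg

/-- The information `z.2` contains the information used by the `z.1.1`-th procedure to accept
`((z.1.2.1, x, t), _)`. -/
def lemUQ (z : (ℕ × ℕ × ℕ) × Info) (x : ℕ) (t : Bool) : Prop :=
  ∃ c' : Info, W z.1.1 (encode (((z.1.2.1, x, t), c') : (ℕ × ℕ × Bool) × Info)) ∧
    (∀ y ∈ c'.1, y ∈ z.2.1) ∧ (∀ y ∈ c'.2, y ∈ z.2.2)

theorem lemUQ_re : REPred fun q : ((ℕ × ℕ × ℕ) × Info) × (ℕ × Bool) =>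
    lemUQ q.1 q.2.1 q.2.2 := by
  refine RE.ex (p := fun (q : ((ℕ × ℕ × ℕ) × Info) × (ℕ × Bool)) (c' : Info) =>
    W q.1.1.1 (encode (((q.1.1.2.1, q.2.1, q.2.2), c') : (ℕ × ℕ × Bool) × Info)) ∧
    (∀ y ∈ c'.1, y ∈ q.1.2.1) ∧ (∀ y ∈ c'.2, y ∈ q.1.2.2)) ?_
  refine RE.and ?_ (RE.and ?_ ?_)
  · exact RE.comp W_re (f := fun x : (((ℕ × ℕ × ℕ) × Info) × (ℕ × Bool)) × Info =>
      (x.1.1.1.1, encode (((x.1.1.1.2.1, x.1.2.1, x.1.2.2), x.2) :
        (ℕ × ℕ × Bool) × Info))) (by fun_prop)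
  · refine RE.all_mem (p := fun (x : (((ℕ × ℕ × ℕ) × Info) × (ℕ × Bool)) × Info) (y : ℕ) =>
      y ∈ x.1.1.2.1) (l := fun x => x.2.1) ?_ (by fun_prop)
    exact RE.mem_list (by fun_prop) (by fun_prop)
  · refine RE.all_mem (p := fun (x : (((ℕ × ℕ × ℕ) × Info) × (ℕ × Bool)) × Info) (y : ℕ) =>
      y ∈ x.1.1.2.2) (l := fun x => x.2.2) ?_ (by fun_prop)
    exact RE.mem_list (by fun_prop) (by fun_prop)

/-- The predicate defining the reduction of the jump of the hierarchy set. -/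
def lemUJ (z : (ℕ × ℕ × ℕ) × Info) : Prop :=
  ∃ w : Info, W z.1.2.2 (encode w) ∧ (∀ x ∈ w.1, lemUQ z x true) ∧
    (∀ x ∈ w.2, lemUQ z x false)

theorem lemUJ_re : REPred lemUJ := by
  refine RE.ex (p := fun (z : (ℕ × ℕ × ℕ) × Info) (w : Info) =>
    W z.1.2.2 (encode w) ∧ (∀ x ∈ w.1, lemUQ z x true) ∧ (∀ x ∈ w.2, lemUQ z x false)) ?_
  refine RE.and ?_ (RE.and ?_ ?_)
  · exact RE.comp W_re (f := fun x : ((ℕ × ℕ × ℕ) × Info) × Info =>
      (x.1.1.2.2, encode x.2)) (by fun_prop)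
  · refine RE.all_mem (p := fun (q : ((ℕ × ℕ × ℕ) × Info) × Info) (x : ℕ) =>
      lemUQ q.1 x true) (l := fun q => q.2.1) ?_ (by fun_prop)
    exact RE.comp lemUQ_re (f := fun q : (((ℕ × ℕ × ℕ) × Info) × Info) × ℕ =>
      (q.1.1, (q.2, true))) (by fun_prop)
  · refine RE.all_mem (p := fun (q : ((ℕ × ℕ × ℕ) × Info) × Info) (x : ℕ) =>
      lemUQ q.1 x false) (l := fun q => q.2.2) ?_ (by fun_prop)
    exact RE.comp lemUQ_re (f := fun q : (((ℕ × ℕ × ℕ) × Info) × Info) × ℕ =>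
      (q.1.1, (q.2, false))) (by fun_prop)

theorem lemUJ_sem {r d m : ℕ} {Kd Hd : Set ℕ}
    (h : ∀ (n : ℕ) (t : Bool), (∃ c : Info,
      W r (encode (((d, n, t), c) : (ℕ × ℕ × Bool) × Info)) ∧ Ok Kd c) ↔
        (t = true ↔ n ∈ Hd)) :
    (∃ c : Info, Ok Kd c ∧ lemUJ ((r, d, m), c)) ↔ m ∈ jump Hd := by
  constructor
  · rintro ⟨c, hc, w, hw, h1, h2⟩
    refine ⟨w, ⟨fun x hx => ?_, fun x hx => ?_⟩, hw⟩
    · obtain ⟨c', h3, h4, h5⟩ := h1 x hx
      exact ((h x true).1 ⟨c', h3, fun y hy => hc.1 y (h4 y hy),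
        fun y hy => hc.2 y (h5 y hy)⟩).1 rfl
    · obtain ⟨c', h3, h4, h5⟩ := h2 x hx
      intro hxH
      have := ((h x false).1 ⟨c', h3, fun y hy => hc.1 y (h4 y hy),
        fun y hy => hc.2 y (h5 y hy)⟩).2 hxH
      exact Bool.noConfusion this
  · rintro ⟨w, hw, hW⟩
    have h1 : ∀ x, ∃ c' : Info, x ∈ w.1 →
        W r (encode (((d, x, true), c') : (ℕ × ℕ × Bool) × Info)) ∧ Ok Kd c' := by
      intro x
      by_cases hx : x ∈ w.1
      · obtain ⟨c', hc'⟩ := (h x true).2 ⟨fun _ => hw.1 x hx, fun _ => rfl⟩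
        exact ⟨c', fun _ => hc'⟩
      · exact ⟨([], []), fun h => absurd h hx⟩
    have h2 : ∀ x, ∃ c' : Info, x ∈ w.2 →
        W r (encode (((d, x, false), c') : (ℕ × ℕ × Bool) × Info)) ∧ Ok Kd c' := by
      intro x
      by_cases hx : x ∈ w.2
      · obtain ⟨c', hc'⟩ := (h x false).2 ⟨fun h => Bool.noConfusion h,
          fun h => absurd h (hw.2 x hx)⟩
        exact ⟨c', fun _ => hc'⟩
      · exact ⟨([], []), fun h => absurd h hx⟩
    choose f hf using h1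
    choose g hg using h2
    refine ⟨((w.1.flatMap fun x => (f x).1) ++ (w.2.flatMap fun x => (g x).1),
      (w.1.flatMap fun x => (f x).2) ++ (w.2.flatMap fun x => (g x).2)), ⟨?_, ?_⟩,
      w, hW, fun x hx => ⟨f x, (hf x hx).1, ?_, ?_⟩, fun x hx => ⟨g x, (hg x hx).1, ?_, ?_⟩⟩
    · intro y hy
      rcases List.mem_append.1 hy with hy | hy
      · obtain ⟨x, hx, hy⟩ := List.mem_flatMap.1 hy
        exact (hf x hx).2.1 y hy
      · obtain ⟨x, hx, hy⟩ := List.mem_flatMap.1 hy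
        exact (hg x hx).2.1 y hy
    · intro y hy
      rcases List.mem_append.1 hy with hy | hy
      · obtain ⟨x, hx, hy⟩ := List.mem_flatMap.1 hy
        exact (hf x hx).2.2 y hy
      · obtain ⟨x, hx, hy⟩ := List.mem_flatMap.1 hy
        exact (hg x hx).2.2 y hy
    · intro y hy
      exact List.mem_append_left _ (List.mem_flatMap.2 ⟨x, hx, hy⟩)
    · intro y hy
      exact List.mem_append_left _ (List.mem_flatMap.2 ⟨x, hx, hy⟩)
    · intro y hy
      exact List.mem_append_right _ (List.mem_flatMap.2 ⟨x, hx, hy⟩)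
    · intro y hy
      exact List.mem_append_right _ (List.mem_flatMap.2 ⟨x, hx, hy⟩)

/-- One step of the recursion. -/
def lemUS (R : ℕ → ℕ → Prop) (U1 : (ℕ × ℕ × Bool) × Info → Prop)
    (U2 : (ℕ × ℕ × ℕ × Bool) × Info → Prop) (j : ℕ × ℕ × ℕ → ℕ) (r : ℕ)
    (z : (ℕ × ℕ × Bool) × Info) : Prop :=
  (z.1.2.1 % 2 = 0 ∧ U1 ((z.1.1, z.1.2.1 / 2, z.1.2.2), z.2)) ∨
  ((z.1.2.1 % 2 = 1 ∧ ¬ R (z.1.2.1 / 2).unpair.1 z.1.1 ∧ z.1.2.2 = false) ∨
  (z.1.2.1 % 2 = 1 ∧ R (z.1.2.1 / 2).unpair.1 z.1.1 ∧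
    U2 ((z.1.1, (z.1.2.1 / 2).unpair.1, j (r, (z.1.2.1 / 2).unpair.1, (z.1.2.1 / 2).unpair.2),
      z.1.2.2), z.2)))

theorem lemUS_re {R : ℕ → ℕ → Prop} (hRc : ComputablePred fun p : ℕ × ℕ => R p.1 p.2)
    {U1 : (ℕ × ℕ × Bool) × Info → Prop} (hU1 : REPred U1)
    {U2 : (ℕ × ℕ × ℕ × Bool) × Info → Prop} (hU2 : REPred U2)
    {j : ℕ × ℕ × ℕ → ℕ} (hj : Computable j) :
    REPred fun x : ℕ × ((ℕ × ℕ × Bool) × Info) => lemUS R U1 U2 j x.1 x.2 := by
  have hm : Computable fun x : ℕ × ((ℕ × ℕ × Bool) × Info) => x.2.1.2.1 % 2 :=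
    lemU_mod (by fun_prop) (by fun_prop)
  have hd : Computable fun x : ℕ × ((ℕ × ℕ × Bool) × Info) => x.2.1.2.1 / 2 :=
    lemU_div (by fun_prop) (by fun_prop)
  have hR1 : REPred fun x : ℕ × ((ℕ × ℕ × Bool) × Info) =>
      R (x.2.1.2.1 / 2).unpair.1 x.2.1.1 :=
    RE.comp hRc.to_re (f := fun x : ℕ × ((ℕ × ℕ × Bool) × Info) =>
      ((x.2.1.2.1 / 2).unpair.1, x.2.1.1)) (by fun_prop)
  have hR2 : REPred fun x : ℕ × ((ℕ × ℕ × Bool) × Info) =>
      ¬ R (x.2.1.2.1 / 2).unpair.1 x.2.1.1 :=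
    RE.comp hRc.not.to_re (f := fun x : ℕ × ((ℕ × ℕ × Bool) × Info) =>
      ((x.2.1.2.1 / 2).unpair.1, x.2.1.1)) (by fun_prop)
  refine RE.or (RE.and (RE.eq hm (by fun_prop)) ?_)
    (RE.or (RE.and (RE.eq hm (by fun_prop)) (RE.and hR2 (RE.eq (by fun_prop) (by fun_prop))))
      (RE.and (RE.eq hm (by fun_prop)) (RE.and hR1 ?_)))
  · exact RE.comp hU1 (f := fun x : ℕ × ((ℕ × ℕ × Bool) × Info) =>
      ((x.2.1.1, x.2.1.2.1 / 2, x.2.1.2.2), x.2.2)) (by fun_prop)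
  · exact RE.comp hU2 (f := fun x : ℕ × ((ℕ × ℕ × Bool) × Info) =>
      ((x.2.1.1, (x.2.1.2.1 / 2).unpair.1,
        j (x.1, (x.2.1.2.1 / 2).unpair.1, (x.2.1.2.1 / 2).unpair.2), x.2.1.2.2), x.2.2))
      (by fun_prop)

theorem lemU {R : ℕ → ℕ → Prop} (hR : WellFounded R)
    (hRc : ComputablePred fun p : ℕ × ℕ => R p.1 p.2) (X : Set ℕ) (K : ℕ → Set ℕ) (B : Set ℕ)
    (hB : ∀ b ∈ B, ∀ c, R c b → c ∈ B)
    (U1 : (ℕ × ℕ × Bool) × Info → Prop) (hU1 : REPred U1)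
    (h1 : ∀ b ∈ B, ∀ n t, (∃ c, U1 ((b, n, t), c) ∧ Ok (K b) c) ↔ (t = true ↔ n ∈ X))
    (U2 : (ℕ × ℕ × ℕ × Bool) × Info → Prop) (hU2 : REPred U2)
    (h2 : ∀ b ∈ B, ∀ d, R d b → ∀ m t,
      (∃ c, U2 ((b, d, m, t), c) ∧ Ok (K b) c) ↔ (t = true ↔ m ∈ jump (K d))) :
    ∀ b ∈ B, Red (H hR X b) (K b) := by
  obtain ⟨j, hj, hj'⟩ := smn (α := ℕ × ℕ × ℕ) (β := Info) (P := fun a c => lemUJ (a, c))
    (RE.comp lemUJ_re (f := fun x : (ℕ × ℕ × ℕ) × Info => (x.1, x.2)) (by fun_prop))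
  obtain ⟨r, hr⟩ := recursion (lemUS_re hRc hU1 hU2 hj)
  have key : ∀ b, b ∈ B → ∀ (n : ℕ) (t : Bool), (∃ c : Info,
      W r (encode (((b, n, t), c) : (ℕ × ℕ × Bool) × Info)) ∧ Ok (K b) c) ↔
        (t = true ↔ n ∈ H hR X b) := by
    intro b
    induction b using hR.induction with
    | _ b ih =>
      intro hb n t
      simp only [hr]
      rw [H_eq]
      rcases Nat.mod_two_eq_zero_or_one n with hn | hn
      · have hn2 : n = 2 * (n / 2) := by omega
        have e1 : (n ∈ join X {n | R n.unpair.1 b ∧ n.unpair.2 ∈ jump (H hR X n.unpair.1)}) ↔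
            n / 2 ∈ X := by
          conv_lhs => rw [hn2]
          exact mem_join_even
        rw [e1, ← h1 b hb (n / 2) t]
        constructor
        · rintro ⟨c, (⟨-, h3⟩ | ⟨h3, -⟩ | ⟨h3, -⟩), h4⟩
          · exact ⟨c, h3, h4⟩
          · exact absurd h3 (by simp only; omega)
          · exact absurd h3 (by simp only; omega)
        · rintro ⟨c, h3, h4⟩
          exact ⟨c, Or.inl ⟨hn, h3⟩, h4⟩
      · have hn2 : n = 2 * (n / 2) + 1 := by omega
        have e1 : (n ∈ join X {n | R n.unpair.1 b ∧ n.unpair.2 ∈ jump (H hR X n.unpair.1)}) ↔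
            R (n / 2).unpair.1 b ∧ (n / 2).unpair.2 ∈ jump (H hR X (n / 2).unpair.1) := by
          conv_lhs => rw [hn2]
          exact mem_join_odd
        rw [e1]
        by_cases hRb : R (n / 2).unpair.1 b
        · have hd : (n / 2).unpair.1 ∈ B := hB b hb _ hRb
          have h5 := lemUJ_sem (m := (n / 2).unpair.2) (ih _ hRb hd)
          have h6 : j (r, (n / 2).unpair.1, (n / 2).unpair.2) ∈ jump (K (n / 2).unpair.1) ↔
              (n / 2).unpair.2 ∈ jump (H hR X (n / 2).unpair.1) := by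
            rw [← h5]
            constructor
            · rintro ⟨c, h7, h8⟩
              exact ⟨c, h7, (hj' _ c).1 h8⟩
            · rintro ⟨c, h7, h8⟩
              exact ⟨c, h7, (hj' _ c).2 h8⟩
          have h7 : (R (n / 2).unpair.1 b ∧
              (n / 2).unpair.2 ∈ jump (H hR X (n / 2).unpair.1)) ↔
              j (r, (n / 2).unpair.1, (n / 2).unpair.2) ∈ jump (K (n / 2).unpair.1) := by
            rw [h6]
            exact ⟨fun h => h.2, fun h => ⟨hRb, h⟩⟩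
          rw [h7, ← h2 b hb _ hRb]
          constructor
          · rintro ⟨c, (⟨h3, -⟩ | ⟨-, h3, -⟩ | ⟨-, -, h3⟩), h4⟩
            · exact absurd h3 (by simp only; omega)
            · exact absurd hRb h3
            · exact ⟨c, h3, h4⟩
          · rintro ⟨c, h3, h4⟩
            exact ⟨c, Or.inr (Or.inr ⟨hn, hRb, h3⟩), h4⟩
        · constructor
          · rintro ⟨c, (⟨h3, -⟩ | ⟨-, -, h3⟩ | ⟨-, h3, -⟩), h4⟩
            · exact absurd h3 (by simp only; omega)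
            · simp only at h3
              subst h3
              exact ⟨fun h => Bool.noConfusion h, fun h => absurd h.1 hRb⟩
            · exact absurd h3 hRb
          · intro h3
            have ht : t = false := by
              cases t
              · rfl
              · exact absurd (h3.1 rfl).1 hRb
            exact ⟨([], []), Or.inr (Or.inl ⟨hn, hRb, ht⟩),
              ⟨fun x hx => by simp at hx, fun x hx => by simp at hx⟩⟩
  intro b hb
  rw [Red_iff]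
  constructor
  · refine ⟨fun n c => W r (encode (((b, n, true), c) : (ℕ × ℕ × Bool) × Info)), ?_,
      fun n => ?_⟩
    · exact RE.comp W_re (f := fun x : ℕ × Info =>
        (r, encode (((b, x.1, true), x.2) : (ℕ × ℕ × Bool) × Info))) (by fun_prop)
    · rw [key b hb n true]
      exact ⟨fun h => ⟨fun _ => h, fun _ => rfl⟩, fun h => h.1 rfl⟩
  · refine ⟨fun n c => W r (encode (((b, n, false), c) : (ℕ × ℕ × Bool) × Info)), ?_,
      fun n => ?_⟩
    · exact RE.comp W_re (f := fun x : ℕ × Info =>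
        (r, encode (((b, x.1, false), x.2) : (ℕ × ℕ × Bool) × Info))) (by fun_prop)
    · rw [key b hb n false]
      exact ⟨fun h => ⟨fun h' => Bool.noConfusion h', fun h' => absurd h' h⟩,
        fun h h' => Bool.noConfusion (h.2 h')⟩

end Pool.Agent.Helper578.JD
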