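import Pool.Agent.KS6_49.L8.Helper578.JD.Grp



namespace Pool.Agent.Helper578.JD

namespace NG

open Encodable Oracle RE Defs

theorem q_comp : Computable q := by
  have hp : Primrec₂ ((· ^ ·) : ℕ → ℕ → ℕ) := Primrec₂.unpaired'.1 Nat.Primrec.pow
  have h1 : Primrec fun j : ℕ => 2 ^ j := hp.comp (Primrec.const 2) Primrec.id
  have h2 : Primrec fun j : ℕ => 2 ^ (2 ^ j) := hp.comp (Primrec.const 2) h1
  exact (Primrec.succ.comp h2).to_comp

/-- product of the `q`s -/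
def PQ (β : List ℕ) : ℕ := (β.map q).prod

theorem PQ_comp : Computable PQ := by
  have h := RE.list_foldl (α := List ℕ) (β := ℕ) (σ := ℕ) (f := fun l => l) (g := fun _ => 1)
    (h := fun _ p => p.1 * q p.2) (by fun_prop) (by fun_prop) (by
      unfold Computable₂
      exact RE.cmul (by fun_prop) (q_comp.comp (by fun_prop)))
  refine h.of_eq fun l => ?_
  have : ∀ (l : List ℕ) (s : ℕ), l.foldl (fun s b => s * q b) s = s * PQ l := by
    intro l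
    induction l with
    | nil => intro s; simp [PQ]
    | cons a l ih =>
      intro s
      rw [List.foldl_cons, ih]
      simp only [PQ, List.map_cons, List.prod_cons]
      ring
  rw [this, one_mul]

theorem q_pos (j : ℕ) : 0 < q j := Nat.succ_pos _

theorem PQ_pos (β : List ℕ) : 0 < PQ β := by
  unfold PQ
  refine List.prod_pos ?_
  intro a ha
  obtain ⟨j, _, rfl⟩ := List.mem_map.1 ha
  exact q_pos j

/-- `β` is the translation of `l` -/
def Bt (X : Set ℕ) (i : ℕ) (l β : List ℕ) : Prop := β.length = l.length ∧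
  ∀ k < l.length, ∃ jm : ℕ × ℕ, l[k]? = some jm.1 ∧ β[k]? = some jm.2 ∧
    ((Nat.pair i jm.1 ∈ X ∧ jm.2 = 2 * jm.1) ∨ (Nat.pair i jm.1 ∉ X ∧ jm.2 = 2 * jm.1 + 1))

theorem Bt_re (X : Set ℕ) : REIn X fun x : (ℕ × List ℕ) × List ℕ => Bt X x.1.1 x.1.2 x.2 := by
  refine REIn.and (REIn.of_re (RE.eq (by fun_prop) (by fun_prop))) ?_
  refine REIn.all_lt (S := fun (x : (ℕ × List ℕ) × List ℕ) k => ∃ jm : ℕ × ℕ,
    x.1.2[k]? = some jm.1 ∧ x.2[k]? = some jm.2 ∧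
    ((Nat.pair x.1.1 jm.1 ∈ X ∧ jm.2 = 2 * jm.1) ∨ (Nat.pair x.1.1 jm.1 ∉ X ∧ jm.2 = 2 * jm.1 + 1)))
    ?_ (by fun_prop)
  refine REIn.ex (S := fun (y : ((ℕ × List ℕ) × List ℕ) × ℕ) (jm : ℕ × ℕ) =>
    y.1.1.2[y.2]? = some jm.1 ∧ y.1.2[y.2]? = some jm.2 ∧
    ((Nat.pair y.1.1.1 jm.1 ∈ X ∧ jm.2 = 2 * jm.1) ∨
      (Nat.pair y.1.1.1 jm.1 ∉ X ∧ jm.2 = 2 * jm.1 + 1))) ?_
  refine REIn.and (REIn.of_re (RE.eq (by fun_prop) (by fun_prop)))
    (REIn.and (REIn.of_re (RE.eq (by fun_prop) (by fun_prop))) (REIn.or ?_ ?_))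
  · exact REIn.and (REIn.mem (by fun_prop)) (REIn.of_re (RE.eq (by fun_prop) (by fun_prop)))
  · exact REIn.and (REIn.not_mem (by fun_prop)) (REIn.of_re (RE.eq (by fun_prop) (by fun_prop)))

open Classical in
/-- the element of the join -/
noncomputable def bb (A : ℕ → Set ℕ) (i j : ℕ) : ℕ := if j ∈ A i then 2 * j else 2 * j + 1

theorem bb_mem (A : ℕ → Set ℕ) (i j : ℕ) : bb A i j ∈ join (A i) (A i)ᶜ := by
  unfold bb
  split_ifs with h
  · exact mem_join_even.2 h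
  · exact mem_join_odd.2 h

theorem bb_div (A : ℕ → Set ℕ) (i m : ℕ) (hm : m ∈ join (A i) (A i)ᶜ) : bb A i (m / 2) = m := by
  unfold bb
  rcases hm with ⟨h1, h2⟩ | ⟨h1, h2⟩
  · rw [if_pos h2]
    omega
  · rw [if_neg h2]
    omega

theorem Bt_iff {A : ℕ → Set ℕ} {X : Set ℕ} (hX : ∀ i m, Nat.pair i m ∈ X ↔ m ∈ A i) (i : ℕ)
    (l β : List ℕ) : Bt X i l β ↔ β = l.map (bb A i) := by
  constructor
  · rintro ⟨h1, h2⟩
    apply List.ext_getElem?
    intro k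
    by_cases hk : k < l.length
    · obtain ⟨⟨j, m⟩, h3, h4, h5⟩ := h2 k hk
      simp only at h3 h4 h5
      rw [List.getElem?_map, h3, h4, Option.map_some]
      congr 1
      unfold bb
      rcases h5 with ⟨h5, h6⟩ | ⟨h5, h6⟩
      · rw [if_pos ((hX _ _).1 h5), h6]
      · rw [if_neg (fun h => h5 ((hX _ _).2 h)), h6]
    · rw [List.getElem?_eq_none (by omega), List.getElem?_eq_none (by simp; omega)]
  · rintro rfl
    refine ⟨by simp, fun k hk => ⟨(l[k], bb A i l[k]), ?_, ?_, ?_⟩⟩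
    · exact List.getElem?_eq_getElem hk
    · rw [List.getElem?_map, List.getElem?_eq_getElem hk, Option.map_some]
    · simp only [hX]
      unfold bb
      by_cases h : l[k] ∈ A i
      · left; exact ⟨h, if_pos h⟩
      · right; exact ⟨h, if_neg h⟩

/-- denominators -/
noncomputable def NN (A : ℕ → Set ℕ) (i : ℕ) (l : List ℕ) : ℕ := PQ (l.map (bb A i))

theorem NN_ne (A : ℕ → Set ℕ) (i : ℕ) (l : List ℕ) : (NN A i l : ℚ) ≠ 0 := by
  have := PQ_pos (l.map (bb A i))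
  unfold NN
  exact_mod_cast this.ne'

/-- the element with the given code -/
noncomputable def elt (A : ℕ → Set ℕ) (i : ℕ) (t : ℕ × ℕ × List ℕ) : grp (A i) :=
  ⟨((t.1 : ℚ) - t.2.1) / NN A i t.2.2, t.2.2.map (bb A i), by
    intro j hj
    obtain ⟨m, _, rfl⟩ := List.mem_map.1 hj
    exact bb_mem A i m, (t.1 : ℤ) - t.2.1, by
    have h := NN_ne A i t.2.2
    show (NN A i t.2.2 : ℚ) * (((t.1 : ℚ) - t.2.1) / NN A i t.2.2) = _
    rw [mul_div_cancel₀ _ h]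
    push_cast
    rfl⟩

theorem elt_default (A : ℕ → Set ℕ) (i : ℕ) : elt A i (0, 0, []) = 0 := by
  apply Subtype.ext
  show (((0 : ℕ) : ℚ) - ((0 : ℕ) : ℚ)) / NN A i [] = 0
  simp

theorem elt_surj (A : ℕ → Set ℕ) (i : ℕ) (y : grp (A i)) : ∃ t, elt A i t = y := by
  obtain ⟨y, l, hl, z, hz⟩ := y
  refine ⟨(z.toNat, (-z).toNat, l.map (· / 2)), ?_⟩
  apply Subtype.ext
  show (((z.toNat : ℕ) : ℚ) - (((-z).toNat : ℕ) : ℚ)) / NN A i (l.map (· / 2)) = y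
  have h1 : NN A i (l.map (· / 2)) = (l.map q).prod := by
    have hl2 : (l.map (· / 2)).map (bb A i) = l := by
      rw [List.map_map]
      conv_rhs => rw [← List.map_id l]
      apply List.map_congr_left
      intro m hm
      exact bb_div A i m (hl m hm)
    unfold NN PQ
    rw [hl2]
  have h2 : ((z.toNat : ℕ) : ℚ) - (((-z).toNat : ℕ) : ℚ) = (z : ℚ) := by
    have := Int.toNat_sub_toNat_neg z
    exact_mod_cast congrArg (Int.cast : ℤ → ℚ) this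
  have h3 := NN_ne A i (l.map (· / 2))
  rw [div_eq_iff h3, h2, ← hz, h1, mul_comm]

/-- the equation for coordinates -/
def Eqn (N N' N'' : ℕ) (t t' t'' : ℕ × ℕ × List ℕ) : Prop :=
  t.1 * N' * N'' + t'.1 * N * N'' + t''.2.1 * N * N'
    = t.2.1 * N' * N'' + t'.2.1 * N * N'' + t''.1 * N * N'

theorem elt_add (A : ℕ → Set ℕ) (i : ℕ) (t t' t'' : ℕ × ℕ × List ℕ) :
    elt A i t + elt A i t' = elt A i t'' ↔
      Eqn (NN A i t.2.2) (NN A i t'.2.2) (NN A i t''.2.2) t t' t'' := by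
  have h := NN_ne A i t.2.2
  have h' := NN_ne A i t'.2.2
  have h'' := NN_ne A i t''.2.2
  have e : elt A i t + elt A i t' = elt A i t'' ↔
      ((t.1 : ℚ) - t.2.1) / NN A i t.2.2 + ((t'.1 : ℚ) - t'.2.1) / NN A i t'.2.2
        = ((t''.1 : ℚ) - t''.2.1) / NN A i t''.2.2 := Subtype.ext_iff
  rw [e, div_add_div _ _ h h', div_eq_div_iff (mul_ne_zero h h') h'']
  unfold Eqn
  generalize NN A i t.2.2 = N at *
  generalize NN A i t'.2.2 = N' at *
  generalize NN A i t''.2.2 = N'' at *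
  rw [← @Nat.cast_inj ℚ]
  push_cast
  constructor <;> intro hh <;> linarith

/-- the list coded by `n` -/
def Ls (n : ℕ) : List (ℕ × ℕ × List ℕ) := (decode n : Option (List (ℕ × ℕ × List ℕ))).getD []

theorem Ls_comp : Computable Ls :=
  (Primrec.option_getD.comp Primrec.decode (Primrec.const [])).to_comp

/-- the entry -/
def ent (n i : ℕ) : ℕ × ℕ × List ℕ := ((Ls n)[i]?).getD (0, 0, [])

theorem ent_comp : Computable fun x : ℕ × ℕ => ent x.1 x.2 := by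
  have h1 : Computable fun x : ℕ × ℕ => (Ls x.1)[x.2]? :=
    RE.cgetElem (Ls_comp.comp Computable.fst) Computable.snd
  exact (Primrec.option_getD.to_comp).comp h1 (Computable.const (0, 0, []))

theorem ent_ge {n i : ℕ} (h : (Ls n).length ≤ i) : ent n i = (0, 0, []) := by
  unfold ent
  rw [List.getElem?_eq_none h]
  rfl

/-- the numbering -/
noncomputable def nu (A : ℕ → Set ℕ) (n : ℕ) : DirectSum ℕ (fun i => grp (A i)) :=
  DirectSum.mk (fun i => grp (A i)) (Finset.range (Ls n).length) (fun i => elt A i (ent n i))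

theorem nu_apply (A : ℕ → Set ℕ) (n i : ℕ) : nu A n i = elt A i (ent n i) := by
  unfold nu
  by_cases h : i ∈ Finset.range (Ls n).length
  · rw [DirectSum.mk_apply_of_mem h]
  · rw [DirectSum.mk_apply_of_notMem h, ent_ge (by simpa using h), elt_default]

theorem nu_surj (A : ℕ → Set ℕ) : Function.Surjective (nu A) := by
  classical
  intro x
  have hM : ∃ M, ∀ i, M ≤ i → x i = 0 := by
    refine ⟨(DFinsupp.support x).sup id + 1, fun i hi => ?_⟩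
    by_contra hx
    have h1 : i ∈ DFinsupp.support x := DFinsupp.mem_support_iff.2 hx
    have h2 := Finset.le_sup (f := id) h1
    simp only [id] at h2
    omega
  obtain ⟨M, hM⟩ := hM
  choose t ht using fun i => elt_surj A i (x i)
  refine ⟨encode ((List.range M).map t), ?_⟩
  apply DirectSum.ext
  intro i
  rw [nu_apply]
  have hL : Ls (encode ((List.range M).map t)) = (List.range M).map t := by
    unfold Ls
    rw [encodek]
    rfl
  by_cases hi : i < M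
  · have : ent (encode ((List.range M).map t)) i = t i := by
      unfold ent
      rw [hL, List.getElem?_map, List.getElem?_range hi]
      rfl
    rw [this, ht]
  · rw [ent_ge (by rw [hL]; simp; omega), elt_default, hM i (by omega)]

theorem Eqn_default (N N' N'' : ℕ) : Eqn N N' N'' (0, 0, []) (0, 0, []) (0, 0, []) := by
  simp [Eqn]

/-- bound of the lengths -/
def mx (p : ℕ × ℕ × ℕ) : ℕ := max (Ls p.1).length (max (Ls p.2.1).length (Ls p.2.2).length)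

theorem mx_comp : Computable mx := by
  have h1 : Computable fun p : ℕ × ℕ × ℕ => Ls p.1 := Ls_comp.comp (by fun_prop)
  have h2 : Computable fun p : ℕ × ℕ × ℕ => Ls p.2.1 := Ls_comp.comp (by fun_prop)
  have h3 : Computable fun p : ℕ × ℕ × ℕ => Ls p.2.2 := Ls_comp.comp (by fun_prop)
  exact RE.cmax (RE.clength h1) (RE.cmax (RE.clength h2) (RE.clength h3))

theorem nu_add (A : ℕ → Set ℕ) (p : ℕ × ℕ × ℕ) : nu A p.1 + nu A p.2.1 = nu A p.2.2 ↔
    ∀ i < mx p, Eqn (NN A i (ent p.1 i).2.2) (NN A i (ent p.2.1 i).2.2) (NN A i (ent p.2.2 i).2.2)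
      (ent p.1 i) (ent p.2.1 i) (ent p.2.2 i) := by
  constructor
  · intro h i _
    rw [← elt_add, ← nu_apply, ← nu_apply, ← nu_apply, ← h, DirectSum.add_apply]
  · intro h
    apply DirectSum.ext
    intro i
    rw [DirectSum.add_apply, nu_apply, nu_apply, nu_apply, elt_add]
    by_cases hi : i < mx p
    · exact h i hi
    · unfold mx at hi
      rw [not_lt, max_le_iff, max_le_iff] at hi
      rw [ent_ge hi.1, ent_ge hi.2.1, ent_ge hi.2.2]
      exact Eqn_default _ _ _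

/-- left and right hand sides -/
def lhs (x : (ℕ × ℕ × ℕ) × (ℕ × ℕ × List ℕ) × (ℕ × ℕ × List ℕ) × (ℕ × ℕ × List ℕ)) : ℕ :=
  x.2.1.1 * x.1.2.1 * x.1.2.2 + x.2.2.1.1 * x.1.1 * x.1.2.2 + x.2.2.2.2.1 * x.1.1 * x.1.2.1

def rhs (x : (ℕ × ℕ × ℕ) × (ℕ × ℕ × List ℕ) × (ℕ × ℕ × List ℕ) × (ℕ × ℕ × List ℕ)) : ℕ :=
  x.2.1.2.1 * x.1.2.1 * x.1.2.2 + x.2.2.1.2.1 * x.1.1 * x.1.2.2 + x.2.2.2.1 * x.1.1 * x.1.2.1

theorem lhs_comp : Computable lhs := by
  unfold lhs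
  fun_prop

theorem rhs_comp : Computable rhs := by
  unfold rhs
  fun_prop

theorem eqn_iff (N N' N'' : ℕ) (t t' t'' : ℕ × ℕ × List ℕ) :
    Eqn N N' N'' t t' t'' ↔ lhs ((N, N', N''), t, t', t'') = rhs ((N, N', N''), t, t', t'') :=
  Iff.rfl

/-- the data at the place `i` -/
def dat (y : ((ℕ × ℕ × ℕ) × ℕ) × (List ℕ × List ℕ × List ℕ)) :
    (ℕ × ℕ × ℕ) × (ℕ × ℕ × List ℕ) × (ℕ × ℕ × List ℕ) × (ℕ × ℕ × List ℕ) :=
  ((PQ y.2.1, PQ y.2.2.1, PQ y.2.2.2), ent y.1.1.1 y.1.2, ent y.1.1.2.1 y.1.2, ent y.1.1.2.2 y.1.2)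

theorem e1_comp : Computable fun y : ((ℕ × ℕ × ℕ) × ℕ) × (List ℕ × List ℕ × List ℕ) =>
    ent y.1.1.1 y.1.2 :=
  ent_comp.comp (f := fun x : ℕ × ℕ => ent x.1 x.2)
    (g := fun y : ((ℕ × ℕ × ℕ) × ℕ) × (List ℕ × List ℕ × List ℕ) => (y.1.1.1, y.1.2)) (by fun_prop)

theorem e2_comp : Computable fun y : ((ℕ × ℕ × ℕ) × ℕ) × (List ℕ × List ℕ × List ℕ) =>
    ent y.1.1.2.1 y.1.2 :=
  ent_comp.comp (f := fun x : ℕ × ℕ => ent x.1 x.2)
    (g := fun y : ((ℕ × ℕ × ℕ) × ℕ) × (List ℕ × List ℕ × List ℕ) => (y.1.1.2.1, y.1.2)) (by fun_prop)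

theorem e3_comp : Computable fun y : ((ℕ × ℕ × ℕ) × ℕ) × (List ℕ × List ℕ × List ℕ) =>
    ent y.1.1.2.2 y.1.2 :=
  ent_comp.comp (f := fun x : ℕ × ℕ => ent x.1 x.2)
    (g := fun y : ((ℕ × ℕ × ℕ) × ℕ) × (List ℕ × List ℕ × List ℕ) => (y.1.1.2.2, y.1.2)) (by fun_prop)

theorem dat_comp : Computable dat := by
  have h1 : Computable fun y : ((ℕ × ℕ × ℕ) × ℕ) × (List ℕ × List ℕ × List ℕ) => PQ y.2.1 :=
    PQ_comp.comp (by fun_prop)
  have h2 : Computable fun y : ((ℕ × ℕ × ℕ) × ℕ) × (List ℕ × List ℕ × List ℕ) => PQ y.2.2.1 :=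
    PQ_comp.comp (by fun_prop)
  have h3 : Computable fun y : ((ℕ × ℕ × ℕ) × ℕ) × (List ℕ × List ℕ × List ℕ) => PQ y.2.2.2 :=
    PQ_comp.comp (by fun_prop)
  exact (h1.pair (h2.pair h3)).pair (e1_comp.pair (e2_comp.pair e3_comp))

/-- the translations are right -/
def Bt3 (X : Set ℕ) (y : ((ℕ × ℕ × ℕ) × ℕ) × (List ℕ × List ℕ × List ℕ)) : Prop :=
  Bt X y.1.2 (ent y.1.1.1 y.1.2).2.2 y.2.1 ∧ Bt X y.1.2 (ent y.1.1.2.1 y.1.2).2.2 y.2.2.1 ∧
    Bt X y.1.2 (ent y.1.1.2.2 y.1.2).2.2 y.2.2.2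

theorem Bt3_re (X : Set ℕ) : REIn X (Bt3 X) := by
  refine REIn.and ?_ (REIn.and ?_ ?_)
  · exact (Bt_re X).comp (f := fun y : ((ℕ × ℕ × ℕ) × ℕ) × (List ℕ × List ℕ × List ℕ) =>
      ((y.1.2, (ent y.1.1.1 y.1.2).2.2), y.2.1))
      (RE.cpair (RE.cpair (by fun_prop) (RE.csnd (RE.csnd e1_comp))) (by fun_prop))
  · exact (Bt_re X).comp (f := fun y : ((ℕ × ℕ × ℕ) × ℕ) × (List ℕ × List ℕ × List ℕ) =>
      ((y.1.2, (ent y.1.1.2.1 y.1.2).2.2), y.2.2.1))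
      (RE.cpair (RE.cpair (by fun_prop) (RE.csnd (RE.csnd e2_comp))) (by fun_prop))
  · exact (Bt_re X).comp (f := fun y : ((ℕ × ℕ × ℕ) × ℕ) × (List ℕ × List ℕ × List ℕ) =>
      ((y.1.2, (ent y.1.1.2.2 y.1.2).2.2), y.2.2.2))
      (RE.cpair (RE.cpair (by fun_prop) (RE.csnd (RE.csnd e3_comp))) (by fun_prop))

theorem numbering (A : ℕ → Set ℕ) (X : Set ℕ) (hX : ∀ i m, Nat.pair i m ∈ X ↔ m ∈ A i) :
    ∃ ν : ℕ → DirectSum ℕ (fun i => grp (A i)), Function.Surjective ν ∧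
      (REIn X fun p : ℕ × ℕ × ℕ => ν p.1 + ν p.2.1 = ν p.2.2) ∧
      (REIn X fun p : ℕ × ℕ × ℕ => ν p.1 + ν p.2.1 ≠ ν p.2.2) := by
  refine ⟨nu A, nu_surj A, ?_, ?_⟩
  · have h1 : REIn X fun p : ℕ × ℕ × ℕ => ∀ i < mx p, ∃ β : List ℕ × List ℕ × List ℕ,
        Bt3 X ((p, i), β) ∧ lhs (dat ((p, i), β)) = rhs (dat ((p, i), β)) := by
      refine REIn.all_lt (S := fun (p : ℕ × ℕ × ℕ) i => ∃ β : List ℕ × List ℕ × List ℕ,
        Bt3 X ((p, i), β) ∧ lhs (dat ((p, i), β)) = rhs (dat ((p, i), β))) ?_ mx_comp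
      refine REIn.ex (S := fun (x : (ℕ × ℕ × ℕ) × ℕ) (β : List ℕ × List ℕ × List ℕ) =>
        Bt3 X (x, β) ∧ lhs (dat (x, β)) = rhs (dat (x, β))) ?_
      exact REIn.and (Bt3_re X) (REIn.of_re (RE.eq (lhs_comp.comp dat_comp) (rhs_comp.comp dat_comp)))
    refine h1.of_eq fun p => ?_
    rw [nu_add]
    refine forall₂_congr fun i _ => ?_
    rw [eqn_iff]
    constructor
    · rintro ⟨⟨β, β', β''⟩, ⟨h2, h3, h4⟩, h5⟩
      simp only at h2 h3 h4
      rw [Bt_iff hX] at h2 h3 h4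
      subst h2 h3 h4
      exact h5
    · intro h5
      exact ⟨((ent p.1 i).2.2.map (bb A i), (ent p.2.1 i).2.2.map (bb A i),
        (ent p.2.2 i).2.2.map (bb A i)), ⟨(Bt_iff hX _ _ _).2 rfl, (Bt_iff hX _ _ _).2 rfl,
        (Bt_iff hX _ _ _).2 rfl⟩, h5⟩
  · have h1 : REIn X fun p : ℕ × ℕ × ℕ => ∃ i, i < mx p ∧ ∃ β : List ℕ × List ℕ × List ℕ,
        Bt3 X ((p, i), β) ∧ lhs (dat ((p, i), β)) ≠ rhs (dat ((p, i), β)) := by
      refine REIn.ex (S := fun (p : ℕ × ℕ × ℕ) i => i < mx p ∧ ∃ β : List ℕ × List ℕ × List ℕ,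
        Bt3 X ((p, i), β) ∧ lhs (dat ((p, i), β)) ≠ rhs (dat ((p, i), β))) ?_
      refine REIn.and (REIn.of_re (RE.lt Computable.snd (mx_comp.comp Computable.fst))) ?_
      refine REIn.ex (S := fun (x : (ℕ × ℕ × ℕ) × ℕ) (β : List ℕ × List ℕ × List ℕ) =>
        Bt3 X (x, β) ∧ lhs (dat (x, β)) ≠ rhs (dat (x, β))) ?_
      exact REIn.and (Bt3_re X) (REIn.of_re (RE.ne (lhs_comp.comp dat_comp) (rhs_comp.comp dat_comp)))
    refine h1.of_eq fun p => ?_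
    rw [ne_eq, nu_add]
    push Not
    refine exists_congr fun i => and_congr_right fun _ => ?_
    rw [eqn_iff]
    constructor
    · rintro ⟨⟨β, β', β''⟩, ⟨h2, h3, h4⟩, h5⟩
      simp only at h2 h3 h4
      rw [Bt_iff hX] at h2 h3 h4
      subst h2 h3 h4
      exact h5
    · intro h5
      exact ⟨((ent p.1 i).2.2.map (bb A i), (ent p.2.1 i).2.2.map (bb A i),
        (ent p.2.2 i).2.2.map (bb A i)), ⟨(Bt_iff hX _ _ _).2 rfl, (Bt_iff hX _ _ _).2 rfl,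
        (Bt_iff hX _ _ _).2 rfl⟩, h5⟩

end NG

end Pool.Agent.Helper578.JD
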