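import Pool.Agent.KS6_49.L8.Helper578.JD.Perm1



namespace Pool.Agent.Helper578.JD

namespace P2

open Encodable Oracle RE Defs
open Nat.Partrec (Code)
open P1 (realize)

theorem Red_iff_Comp {z Y : Set ℕ} : Red z Y ↔ ∃ e, Comp e z Y := by
  constructor
  · intro h
    obtain ⟨⟨Rp, hRp, hp⟩, ⟨Rm, hRm, hm⟩⟩ := Red_iff.1 h
    obtain ⟨r, hr⟩ := recursion (β := (ℕ × Bool) × Info)
      (P := fun _ y => (y.1.2 = true ∧ Rp y.1.1 y.2) ∨ (y.1.2 = false ∧ Rm y.1.1 y.2)) (by
        refine RE.or (RE.and ?_ ?_) (RE.and ?_ ?_)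
        · exact RE.eq (by fun_prop) (by fun_prop)
        · exact RE.comp hRp (f := fun x : ℕ × ((ℕ × Bool) × Info) => (x.2.1.1, x.2.2)) (by fun_prop)
        · exact RE.eq (by fun_prop) (by fun_prop)
        · exact RE.comp hRm (f := fun x : ℕ × ((ℕ × Bool) × Info) => (x.2.1.1, x.2.2)) (by fun_prop))
    refine ⟨r, fun n t => ?_⟩
    cases t
    · have h1 : (∃ c : Info, W r (encode ((n, false), c)) ∧ Ok Y c) ↔ ∃ c : Info, Rm n c ∧ Ok Y c := by
        refine exists_congr (fun c => and_congr_left (fun _ => ?_))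
        rw [hr]
        simp
      rw [h1, ← hm n]
      simp
    · have h1 : (∃ c : Info, W r (encode ((n, true), c)) ∧ Ok Y c) ↔ ∃ c : Info, Rp n c ∧ Ok Y c := by
        refine exists_congr (fun c => and_congr_left (fun _ => ?_))
        rw [hr]
        simp
      rw [h1, ← hp n]
      simp
  · rintro ⟨e, he⟩
    refine Red_iff.2 ⟨⟨fun n c => W e (encode ((n, true), c)), ?_, fun n => ?_⟩,
      ⟨fun n c => W e (encode ((n, false), c)), ?_, fun n => ?_⟩⟩
    · exact RE.comp W_re (f := fun x : ℕ × Info => (e, encode ((x.1, true), x.2))) (by fun_prop)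
    · have := he n true
      rw [this]; simp
    · exact RE.comp W_re (f := fun x : ℕ × Info => (e, encode ((x.1, false), x.2))) (by fun_prop)
    · have := he n false
      rw [this]; simp

/-- the verification relation -/
def Vf (Z : Set ℕ) (q c : Info) : Prop :=
  (∀ y ∈ c.1, (y % 2 = 0 ∧ y / 2 ∈ q.1) ∨ (y % 2 = 1 ∧ y / 2 ∈ Z)) ∧
    ∀ y ∈ c.2, (y % 2 = 0 ∧ y / 2 ∈ q.2) ∨ (y % 2 = 1 ∧ y / 2 ∉ Z)

theorem cmod2 {α : Type*} [Primcodable α] {f : α → ℕ} (hf : Computable f) :
    Computable (fun x => f x % 2) :=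
  Primrec.nat_mod.to_comp.comp hf (Computable.const 2)

theorem cdiv2 {α : Type*} [Primcodable α] {f : α → ℕ} (hf : Computable f) :
    Computable (fun x => f x / 2) :=
  Primrec.nat_div.to_comp.comp hf (Computable.const 2)

theorem Vf_re (Z : Set ℕ) : REIn Z (fun p : Info × Info => Vf Z p.1 p.2) := by
  refine REIn.and ?_ ?_
  · refine REIn.all_mem (S := fun (p : Info × Info) y => (y % 2 = 0 ∧ y / 2 ∈ p.1.1) ∨ (y % 2 = 1 ∧ y / 2 ∈ Z))
      (l := fun p => p.2.1) ?_ (by fun_prop)
    refine REIn.or (REIn.of_re (RE.and ?_ ?_)) (REIn.and (REIn.of_re ?_) ?_)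
    · exact RE.eq (cmod2 (by fun_prop)) (by fun_prop)
    · exact RE.mem_list (cdiv2 (by fun_prop)) (by fun_prop)
    · exact RE.eq (cmod2 (by fun_prop)) (by fun_prop)
    · exact REIn.mem (f := fun x : (Info × Info) × ℕ => x.2 / 2) (cdiv2 (by fun_prop))
  · refine REIn.all_mem (S := fun (p : Info × Info) y => (y % 2 = 0 ∧ y / 2 ∈ p.1.2) ∨ (y % 2 = 1 ∧ y / 2 ∉ Z))
      (l := fun p => p.2.2) ?_ (by fun_prop)
    refine REIn.or (REIn.of_re (RE.and ?_ ?_)) (REIn.and (REIn.of_re ?_) ?_)
    · exact RE.eq (cmod2 (by fun_prop)) (by fun_prop)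
    · exact RE.mem_list (cdiv2 (by fun_prop)) (by fun_prop)
    · exact RE.eq (cmod2 (by fun_prop)) (by fun_prop)
    · exact REIn.not_mem (f := fun x : (Info × Info) × ℕ => x.2 / 2) (cdiv2 (by fun_prop))

/-- good information -/
def Gd (σ : List ℕ) (X : Set ℕ) (q : Info) : Prop :=
  Cons q ∧ (∀ y ∈ q.1, σ[y.unpair.1]? = none ∨
      ∃ m, σ[y.unpair.1]? = some m ∧ Nat.pair m y.unpair.2 ∈ X) ∧
    ∀ y ∈ q.2, σ[y.unpair.1]? = none ∨
      ∃ m, σ[y.unpair.1]? = some m ∧ Nat.pair m y.unpair.2 ∉ X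

theorem Gd_re (σ : List ℕ) (X : Set ℕ) : REIn X (fun q : Info => Gd σ X q) := by
  refine REIn.and (REIn.of_re ?_) (REIn.and ?_ ?_)
  · refine RE.all_mem (p := fun (q : Info) y => y ∉ q.2) (l := fun q => q.1) ?_ (by fun_prop)
    exact RE.not_mem_list (by fun_prop) (by fun_prop)
  · refine REIn.all_mem (S := fun (q : Info) y => σ[y.unpair.1]? = none ∨
      ∃ m, σ[y.unpair.1]? = some m ∧ Nat.pair m y.unpair.2 ∈ X) (l := fun q => q.1) ?_ (by fun_prop)
    refine REIn.or (REIn.of_re (RE.eq (by fun_prop) (by fun_prop))) ?_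
    refine REIn.ex (S := fun (x : Info × ℕ) m => σ[x.2.unpair.1]? = some m ∧ Nat.pair m x.2.unpair.2 ∈ X) ?_
    refine REIn.and (REIn.of_re (RE.eq (by fun_prop) (by fun_prop))) ?_
    exact REIn.mem (f := fun x : (Info × ℕ) × ℕ => Nat.pair x.2 x.1.2.unpair.2) (by fun_prop)
  · refine REIn.all_mem (S := fun (q : Info) y => σ[y.unpair.1]? = none ∨
      ∃ m, σ[y.unpair.1]? = some m ∧ Nat.pair m y.unpair.2 ∉ X) (l := fun q => q.2) ?_ (by fun_prop)
    refine REIn.or (REIn.of_re (RE.eq (by fun_prop) (by fun_prop))) ?_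
    refine REIn.ex (S := fun (x : Info × ℕ) m => σ[x.2.unpair.1]? = some m ∧ Nat.pair m x.2.unpair.2 ∉ X) ?_
    refine REIn.and (REIn.of_re (RE.eq (by fun_prop) (by fun_prop))) ?_
    exact REIn.not_mem (f := fun x : (Info × ℕ) × ℕ => Nat.pair x.2 x.1.2.unpair.2) (by fun_prop)

theorem mem_restr_pair {x : Set ℕ} {σ : List ℕ} {i m n : ℕ} (h : σ[i]? = some m) :
    Nat.pair m n ∈ restr x σ ↔ Nat.pair m n ∈ x := by
  have hm : m ∈ σ := List.mem_of_getElem? h
  constructor
  · intro h1; exact h1.1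
  · intro h1; exact ⟨h1, by rw [Nat.unpair_pair]; exact hm⟩

theorem step_avoid {x Z z : Set ℕ} (h : OneGen x Z)
    (hz : ∀ σ : List ℕ, ¬ Red z (join (restr x σ) Z)) (e : ℕ)
    (σ : List ℕ) (hσ : σ.Nodup) : ∃ τ, σ <+: τ ∧ τ.Nodup ∧
      ∀ π : ℕ → ℕ, Ext τ π → ¬ Comp e z (join (perm π x) Z) := by
  by_cases hc : ∃ (q c : Info) (n : ℕ), Gd σ (restr x σ) q ∧ Vf Z q c ∧
      ((W e (encode ((n, true), c)) ∧ n ∉ z) ∨ (W e (encode ((n, false), c)) ∧ n ∈ z))
  · obtain ⟨q, c, n, hq, hv, hw⟩ := hc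
    obtain ⟨τ, h1, h2, h3⟩ := realize h σ hσ q hq.1
      (by
        intro y hy m hm
        rcases hq.2.1 y hy with h4 | ⟨m', h4, h5⟩
        · rw [h4] at hm; simp at hm
        · rw [h4, Option.some.injEq] at hm
          subst hm
          exact (mem_restr_pair h4).1 h5)
      (by
        intro y hy m hm
        rcases hq.2.2 y hy with h4 | ⟨m', h4, h5⟩
        · rw [h4] at hm; simp at hm
        · rw [h4, Option.some.injEq] at hm
          subst hm
          exact fun h6 => h5 ((mem_restr_pair h4).2 h6))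
    refine ⟨τ, h1, h2, fun π hπ hcomp => ?_⟩
    have hok := h3 π hπ
    have hokc : Ok (join (perm π x) Z) c := by
      constructor
      · intro y hy
        rcases hv.1 y hy with ⟨h4, h5⟩ | ⟨h4, h5⟩
        · exact Or.inl ⟨h4, hok.1 _ h5⟩
        · exact Or.inr ⟨h4, h5⟩
      · intro y hy hj
        rcases hv.2 y hy with ⟨h4, h5⟩ | ⟨h4, h5⟩
        · rcases hj with ⟨h6, h7⟩ | ⟨h6, h7⟩
          · exact hok.2 _ h5 h7
          · omega
        · rcases hj with ⟨h6, h7⟩ | ⟨h6, h7⟩
          · omega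
          · exact h5 h7
    rcases hw with ⟨h4, h5⟩ | ⟨h4, h5⟩
    · have := (hcomp n true).1 ⟨c, h4, hokc⟩
      exact h5 (this.1 rfl)
    · have := (hcomp n false).1 ⟨c, h4, hokc⟩
      exact absurd (this.2 h5) (by simp)
  · refine ⟨σ, List.prefix_rfl, hσ, fun π hπ hcomp => hz σ ?_⟩
    have key : ∀ (n : ℕ) (t : Bool), (t = true ↔ n ∈ z) ↔ ∃ p : Info × Info,
        (Gd σ (restr x σ) p.1 ∧ Vf Z p.1 p.2) ∧ W e (encode ((n, t), p.2)) := by
      intro n t
      constructor
      · intro ht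
        obtain ⟨c, hcW, hcok⟩ := (hcomp n t).2 ht
        refine ⟨(((c.1.filter (fun y => decide (y % 2 = 0))).map (fun y => y / 2),
          (c.2.filter (fun y => decide (y % 2 = 0))).map (fun y => y / 2)), c), ⟨?_, ?_⟩, hcW⟩
        · have hok : Ok (perm π x) ((c.1.filter (fun y => decide (y % 2 = 0))).map (fun y => y / 2),
              (c.2.filter (fun y => decide (y % 2 = 0))).map (fun y => y / 2)) := by
            constructor
            · intro y hy
              simp only [List.mem_map, List.mem_filter, decide_eq_true_eq] at hy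
              obtain ⟨w, ⟨hw1, hw2⟩, rfl⟩ := hy
              rcases hcok.1 w hw1 with ⟨h6, h7⟩ | ⟨h6, h7⟩
              · exact h7
              · omega
            · intro y hy hmem
              simp only [List.mem_map, List.mem_filter, decide_eq_true_eq] at hy
              obtain ⟨w, ⟨hw1, hw2⟩, rfl⟩ := hy
              exact hcok.2 w hw1 (Or.inl ⟨hw2, hmem⟩)
          refine ⟨okCons hok, ?_, ?_⟩
          · intro y hy
            rcases hcase : σ[y.unpair.1]? with _ | m
            · exact Or.inl rfl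
            · refine Or.inr ⟨m, rfl, (mem_restr_pair hcase).2 ?_⟩
              have h8 : Nat.pair (π y.unpair.1) y.unpair.2 ∈ x := hok.1 y hy
              rwa [hπ _ _ hcase] at h8
          · intro y hy
            rcases hcase : σ[y.unpair.1]? with _ | m
            · exact Or.inl rfl
            · refine Or.inr ⟨m, rfl, fun h9 => ?_⟩
              have h8 : ¬ (Nat.pair (π y.unpair.1) y.unpair.2 ∈ x) := hok.2 y hy
              rw [hπ _ _ hcase] at h8
              exact h8 ((mem_restr_pair hcase).1 h9)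
        · constructor
          · intro y hy
            rcases hcok.1 y hy with ⟨h6, h7⟩ | ⟨h6, h7⟩
            · left
              refine ⟨h6, ?_⟩
              simp only [List.mem_map, List.mem_filter, decide_eq_true_eq]
              exact ⟨y, ⟨hy, h6⟩, rfl⟩
            · exact Or.inr ⟨h6, h7⟩
          · intro y hy
            have h8 := hcok.2 y hy
            rcases Nat.mod_two_eq_zero_or_one y with h6 | h6
            · left
              refine ⟨h6, ?_⟩
              simp only [List.mem_map, List.mem_filter, decide_eq_true_eq]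
              exact ⟨y, ⟨hy, h6⟩, rfl⟩
            · exact Or.inr ⟨h6, fun h7 => h8 (Or.inr ⟨h6, h7⟩)⟩
      · rintro ⟨⟨q, c⟩, ⟨h4, h5⟩, h6⟩
        by_contra hcon
        apply hc
        refine ⟨q, c, n, h4, h5, ?_⟩
        cases t
        · right
          refine ⟨h6, ?_⟩
          by_contra h7
          exact hcon (by simp [h7])
        · left
          refine ⟨h6, ?_⟩
          intro h7
          exact hcon (by simp [h7])
    have hGV : REIn (join (restr x σ) Z) (fun p : Info × Info => Gd σ (restr x σ) p.1 ∧ Vf Z p.1 p.2) :=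
      REIn.and ((reMono (Gd_re σ (restr x σ)) (Red_join_left _ _)).comp (f := fun p : Info × Info => p.1)
        (by fun_prop)) (reMono (Vf_re Z) (Red_join_right _ _))
    have hS : ∀ t : Bool, REIn (join (restr x σ) Z) (fun n : ℕ => ∃ p : Info × Info,
        (Gd σ (restr x σ) p.1 ∧ Vf Z p.1 p.2) ∧ W e (encode ((n, t), p.2))) := by
      intro t
      refine REIn.ex (S := fun (n : ℕ) (p : Info × Info) =>
        (Gd σ (restr x σ) p.1 ∧ Vf Z p.1 p.2) ∧ W e (encode ((n, t), p.2))) ?_
      refine REIn.and ?_ (REIn.of_re ?_)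
      · exact hGV.comp (f := fun x : ℕ × (Info × Info) => x.2) (by fun_prop)
      · exact RE.comp W_re (f := fun x : ℕ × (Info × Info) => (e, encode ((x.1, t), x.2.2))) (by fun_prop)
    refine Red_iff.2 ⟨(hS true).of_eq fun n => ?_, (hS false).of_eq fun n => ?_⟩
    · rw [← key n true]; simp
    · rw [← key n false]; simp

end P2

end Pool.Agent.Helper578.JD
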