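import Pool.Agent.KS6_49.L8.Helper578.JD.HGen
import Pool.Agent.KS6_49.L8.Helper578.JD.Perm2
import Pool.Agent.KS6_49.L8.Helper578.JD.Perm3
import Pool.Agent.KS6_49.L8.Helper578.JD.Decode
import Pool.Agent.KS6_49.L8.Helper578.JD.Numb
import Pool.Agent.KS6_49.L8.Helper578.JD.NumbG

/-!
The main result on jump degrees of completely decomposable groups.
-/

namespace Pool.Agent.Helper578.JD

open Encodable Oracle RE Defs
open Nat.Partrec (Code)

variable {R : ℕ → ℕ → Prop}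

theorem Red_join {A B C : Set ℕ} (hA : Red A C) (hB : Red B C) : Red (join A B) C := by
  rw [Red_iff] at hA hB ⊢
  have hd : Computable fun n : ℕ => n / 2 := HG.cdiv2 Computable.id
  have hm : Computable fun n : ℕ => n % 2 := HG.cmod2 Computable.id
  constructor
  · refine REIn.or (REIn.and (REIn.of_re (RE.eq hm (Computable.const 0))) (hA.1.comp hd))
      (REIn.and (REIn.of_re (RE.eq hm (Computable.const 1))) (hB.1.comp hd))
  · refine (REIn.or (REIn.and (REIn.of_re (RE.eq hm (Computable.const 0))) (hA.2.comp hd))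
      (REIn.and (REIn.of_re (RE.eq hm (Computable.const 1))) (hB.2.comp hd))).of_eq fun n => ?_
    show _ ↔ ¬ ((n % 2 = 0 ∧ n / 2 ∈ A) ∨ (n % 2 = 1 ∧ n / 2 ∈ B))
    constructor
    · rintro (⟨h1, h2⟩ | ⟨h1, h2⟩) (⟨h3, h4⟩ | ⟨h3, h4⟩)
      · exact h2 h4
      · omega
      · omega
      · exact h2 h4
    · intro h
      rcases Nat.mod_two_eq_zero_or_one n with h1 | h1
      · exact Or.inl ⟨h1, fun h2 => h (Or.inl ⟨h1, h2⟩)⟩
      · exact Or.inr ⟨h1, fun h2 => h (Or.inr ⟨h1, h2⟩)⟩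

theorem Red_empty (A : Set ℕ) : Red ∅ A := by
  rw [Red_iff]
  constructor
  · exact (REIn.of_re (RE.const False)).of_eq fun n => by simp
  · exact (REIn.of_re (RE.const True)).of_eq fun n => by simp

/-- The index form of relative genericity. -/
def Idx (Z : Set ℕ) (e : ℕ) (p : Info) : Prop := ∃ c : Info, W e (encode (p, c)) ∧ Ok Z c

theorem Idx_re (Z : Set ℕ) (e : ℕ) : REIn Z (Idx Z e) := by
  refine ⟨fun p c => W e (encode (p, c)), ?_, fun p => Iff.rfl⟩
  exact RE.comp W_re (f := fun x : Info × Info => (e, encode (x.1, x.2))) (by fun_prop)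

theorem Idx_univ {Z : Set ℕ} {V : Info → Prop} (h : REIn Z V) : ∃ e, ∀ p, V p ↔ Idx Z e p := by
  obtain ⟨P, hP, h1⟩ := h
  obtain ⟨r, hr⟩ := recursion (β := Info × Info) (P := fun _ y => P y.1 y.2)
    (RE.comp hP (f := fun x : ℕ × (Info × Info) => (x.2.1, x.2.2)) (by fun_prop))
  refine ⟨r, fun p => ?_⟩
  rw [h1 p]
  constructor
  · rintro ⟨c, h2, h3⟩; exact ⟨c, (hr (p, c)).2 h2, h3⟩
  · rintro ⟨c, h2, h3⟩; exact ⟨c, (hr (p, c)).1 h2, h3⟩

/-- The requirements for the permutation. -/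
def Req (x Z z : Set ℕ) (Zs : ℕ → Set ℕ) (n : ℕ) (τ : List ℕ) : Prop :=
  if n % 2 = 0 then
    (∀ π : ℕ → ℕ, Ext τ π → ∃ p, Ok (perm π x) p ∧ Idx (Zs (n / 2).unpair.1) (n / 2).unpair.2 p) ∨
    (∀ π : ℕ → ℕ, Ext τ π → ∃ p, Ok (perm π x) p ∧
      ∀ q, Idx (Zs (n / 2).unpair.1) (n / 2).unpair.2 q → ¬ Cons (app p q))
  else ∀ π : ℕ → ℕ, Ext τ π → ¬ Comp (n / 2) z (join (perm π x) Z)

theorem exists_perm {x Z z : Set ℕ} (Zs : ℕ → Set ℕ) (h : ∀ i, OneGen x (Zs i))
    (hZ : OneGen x Z) (hz : ∀ σ : List ℕ, ¬ Red z (join (restr x σ) Z)) :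
    ∃ π : ℕ ≃ ℕ, (∀ i, OneGen (perm π x) (Zs i)) ∧ ¬ Red z (join (perm π x) Z) := by
  obtain ⟨π, hπ⟩ := exists_perm_meeting (Req x Z z Zs) (by
    intro n σ hσ
    unfold Req
    by_cases hn : n % 2 = 0
    · simp only [if_pos hn]
      exact P1.step_generic (h _) _ (Idx_re _ _) σ hσ
    · simp only [if_neg hn]
      exact P2.step_avoid hZ hz (n / 2) σ hσ)
  refine ⟨π, fun i V hV => ?_, fun hred => ?_⟩
  · obtain ⟨e, he⟩ := Idx_univ hV
    obtain ⟨τ, h1, h2⟩ := hπ (2 * Nat.pair i e)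
    unfold Req at h1
    have e1 : (2 * Nat.pair i e) % 2 = 0 := by omega
    have e2 : (2 * Nat.pair i e) / 2 = Nat.pair i e := by omega
    rw [if_pos e1, e2, Nat.unpair_pair] at h1
    simp only at h1
    rcases h1 with h1 | h1
    · obtain ⟨p, h3, h4⟩ := h1 π h2
      exact Or.inl ⟨p, h3, (he p).2 h4⟩
    · obtain ⟨p, h3, h4⟩ := h1 π h2
      exact Or.inr ⟨p, h3, fun q hq => h4 q ((he q).1 hq)⟩
  · obtain ⟨e, he⟩ := P2.Red_iff_Comp.1 hred
    obtain ⟨τ, h1, h2⟩ := hπ (2 * e + 1)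
    unfold Req at h1
    have e1 : ¬ (2 * e + 1) % 2 = 0 := by omega
    have e2 : (2 * e + 1) / 2 = e := by omega
    rw [if_neg e1, e2] at h1
    exact h1 π h2 he

/-- The group attached to `x`. -/
abbrev Gp (x : Set ℕ) : Type := DirectSum ℕ fun i => grp (col x i)

instance infinite_ds (A : ℕ → Set ℕ) : Infinite (DirectSum ℕ fun i => grp (A i)) := by
  refine Infinite.of_injective (fun n : ℕ => DirectSum.of (fun i => grp (A i)) 0
    (n • (⟨1, one_mem_grp _⟩ : grp (A 0)))) ?_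
  intro m n hmn
  have h1 := DirectSum.of_injective (β := fun i => grp (A i)) 0 hmn
  have h2 := congrArg (fun g : grp (A 0) => (g : ℚ)) h1
  simpa using h2

theorem exists_copy (x : Set ℕ) (π : ℕ ≃ ℕ) : ∃ D, IsCopy (Gp x) D ∧ Red D (perm π x) := by
  obtain ⟨ν, h1, h2, h3⟩ := NG.numbering (fun i => col x (π i)) (perm π x) (by
    intro i m
    simp [perm, col])
  obtain ⟨D, h4, h5⟩ := copy_of_numbering ν h1 (perm π x) h2 h3
  exact ⟨D, copy_perm (col x) π h4, h5⟩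

theorem perm_refl (x : Set ℕ) : perm (Equiv.refl ℕ) x = x := by
  ext n
  simp [perm]

/-- The main result in terms of sets. -/
theorem main_sets (hR : WellFounded R) (hRc : ComputablePred fun p : ℕ × ℕ => R p.1 p.2)
    (htr : ∀ x y z, R x y → R y z → R x z) (a : ℕ) : ∃ x : Set ℕ,
    (∃ D, IsCopy (Gp x) D ∧ Red (H hR D a) (H hR ∅ a)) ∧
    (∀ D, IsCopy (Gp x) D → Red (H hR ∅ a) (H hR D a)) ∧
    ∀ b, R b a → ¬ ∃ D, IsCopy (Gp x) D ∧
      ∀ D', IsCopy (Gp x) D' → Red (H hR D b) (H hR D' b) := by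
  obtain ⟨x, hx, hgen⟩ := exists_generic hR hRc a
  refine ⟨x, ?_, fun D _ => H_mono hR hRc (Red_empty D) a, ?_⟩
  · obtain ⟨D, h1, h2⟩ := exists_copy x (Equiv.refl ℕ)
    rw [perm_refl] at h2
    refine ⟨D, h1, (H_mono hR hRc h2 a).trans ((HG.H_generic hR hRc htr hgen).trans ?_)⟩
    exact Red_join hx (Red.refl _)
  · rintro b hb ⟨D, hD, hmin⟩
    have hz : ∀ σ : List ℕ, ¬ Red (H hR D b) (join (restr x σ) (H hR ∅ b)) := by
      intro σ hred
      obtain ⟨k, hk⟩ := Infinite.exists_notMem_finset σ.toFinset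
      have hk' : k ∉ σ := by simpa using hk
      exact indep (hgen b hb) σ k hk' (((decode (col x) hD k).trans (Red_H hR D b)).trans hred)
    classical
    obtain ⟨π, h1, h2⟩ := exists_perm (fun i => if R i b then H hR ∅ i else H hR ∅ b) (by
      intro i
      by_cases hi : R i b
      · simp only [if_pos hi]; exact hgen i (htr _ _ _ hi hb)
      · simp only [if_neg hi]; exact hgen b hb) (hgen b hb) hz
    obtain ⟨D', h3, h4⟩ := exists_copy x π
    refine h2 ((hmin D' h3).trans ((H_mono hR hRc h4 b).trans (HG.H_generic hR hRc htr ?_)))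
    intro c hc
    have h5 := h1 c
    simp only [if_pos hc] at h5
    exact h5

end Pool.Agent.Helper578.JD
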